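import Pool.Agent.N625.PT.X4
import Pool.Agent.H373R2.T7.Fund

set_option autoImplicit false

/-! Progressions: almost all terms keep the expected number of elements free of medium primes. -/

namespace Pool.Agent.V5helper23.KQ
open Finset
open Pool.Agent.H373R2.T7 (pz mem_pz nuB PerB nuB_le sys_fund Vz Vz_pos Vz_le_one Vz_inv_small ev_L')
open Pool.Agent.Y877.SX (mid Vm fd FF mem_mid fac_pos fac_le Vm_pos Vm_le fd_one fd_mul fac_inv_one one_le_prodR FF_sum Vz_split)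
open Pool.Agent.N625.PT (VP VP_pos VP_le Vm_le_VP rootZ_ex rootZ_uniq dvd_modZ few_oneZ)

open Classical in
lemma prod_one (y z : ℕ) (P : Finset ℕ) (hP : P ⊆ mid y z) (α β : ℤ) (hα : ∀ q ∈ P, ¬ (q : ℤ) ∣ α) (Q : ℕ → ℕ → Prop)
    (hQd : ∀ q n, Q q n ↔ (q ∈ P ∧ (q : ℤ) ∣ α * (n : ℕ) + β)) :
    PerB Q 1 ∧ VP P ≤ ∏ q ∈ pz z, (1 - (nuB Q q : ℝ) / q) ∧
    ∀ N : ℕ, (Icc 1 N).filter (fun v : ℕ => ∀ q ∈ pz z, ¬ Q q v) = (Icc 1 N).filter (fun v : ℕ => ∀ q ∈ P, ¬ (q : ℤ) ∣ α * v + β) := by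
  have hQ : PerB Q 1 := by
    refine ⟨fun q n => by rw [hQd, hQd, dvd_modZ], fun q hq => ?_⟩
    unfold nuB
    by_cases h : q ∈ P
    · refine le_trans (card_le_card ?_) (few_oneZ q α β hq (hα q h))
      intro r hr
      rw [mem_filter] at hr ⊢
      exact ⟨hr.1, ((hQd _ _).1 hr.2).2⟩
    · rw [filter_false_of_mem (fun r _ => by rw [hQd]; tauto), card_empty]
      exact Nat.zero_le _
  have hsub : ∀ q ∈ P, q ∈ pz z := fun q hq => mem_pz.2 (mem_mid.1 (hP hq)).2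
  refine ⟨hQ, ?_, ?_⟩
  · have : VP P = ∏ q ∈ pz z, (if q ∈ P then (1 - 1 / (q : ℝ)) else 1) := by
      unfold VP
      rw [← prod_filter]
      apply prod_congr _ (fun _ _ => rfl)
      ext q
      rw [mem_filter]
      exact ⟨fun h => ⟨hsub q h, h⟩, fun h => h.2⟩
    rw [this]
    apply prod_le_prod
    · intro q hq
      split_ifs
      · exact (fac_pos (mem_pz.1 hq).2).le
      · exact zero_le_one
    · intro q hq
      have hpp := (mem_pz.1 hq).2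
      have hp0 : (0 : ℝ) < q := by exact_mod_cast hpp.pos
      split_ifs with hy
      · have : (nuB Q q : ℝ) ≤ 1 := by exact_mod_cast hQ.few q hpp
        gcongr
      · have : nuB Q q = 0 := by
          unfold nuB
          rw [filter_false_of_mem, card_empty]
          intro r _ hq
          exact hy ((hQd _ _).1 hq).1
        rw [this]
        simp
  · intro N
    apply filter_congr
    intro n _
    constructor
    · intro h q hq hd
      exact h q (hsub q hq) ((hQd _ _).2 ⟨hq, hd⟩)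
    · intro h q _ hq
      obtain ⟨hq, hd⟩ := (hQd _ _).1 hq
      exact h q hq hd

open Classical in
lemma prod_two (y z : ℕ) (P : Finset ℕ) (hP : P ⊆ mid y z) (α β β' : ℤ) (D : ℕ) (hα : ∀ q ∈ P, ¬ (q : ℤ) ∣ α)
    (hD : ∀ q ∈ P, ∀ v : ℕ, (q : ℤ) ∣ α * v + β → (q : ℤ) ∣ α * v + β' → q ∣ D) (Q : ℕ → ℕ → Prop)
    (hQd : ∀ q n, Q q n ↔ (q ∈ P ∧ ((q : ℤ) ∣ α * (n : ℕ) + β ∨ (q : ℤ) ∣ α * (n : ℕ) + β'))) :
    PerB Q 2 ∧ ∏ q ∈ pz z, (1 - (nuB Q q : ℝ) / q) ≤ VP P ^ 2 * fd y z D ∧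
    ∀ N : ℕ, (Icc 1 N).filter (fun v : ℕ => ∀ q ∈ pz z, ¬ Q q v) =
      (Icc 1 N).filter (fun v : ℕ => (∀ q ∈ P, ¬ (q : ℤ) ∣ α * v + β) ∧ (∀ q ∈ P, ¬ (q : ℤ) ∣ α * v + β')) := by
  have hQ : PerB Q 2 := by
    refine ⟨fun q n => by rw [hQd, hQd, dvd_modZ, dvd_modZ q α β'], fun q hq => ?_⟩
    unfold nuB
    by_cases h : q ∈ P
    · have h1 := few_oneZ q α β hq (hα q h)
      have h2 := few_oneZ q α β' hq (hα q h)
      refine le_trans (card_le_card (t := (range q).filter (fun r => (q : ℤ) ∣ α * (r : ℕ) + β) ∪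
        (range q).filter (fun r => (q : ℤ) ∣ α * (r : ℕ) + β')) ?_) ?_
      · intro r hr
        rw [mem_filter] at hr
        rw [mem_union, mem_filter, mem_filter]
        rcases ((hQd _ _).1 hr.2).2 with h | h
        · exact Or.inl ⟨hr.1, h⟩
        · exact Or.inr ⟨hr.1, h⟩
      · exact (card_union_le _ _).trans (by omega)
    · rw [filter_false_of_mem (fun r _ => by rw [hQd]; tauto), card_empty]
      exact Nat.zero_le _
  have hsub : ∀ q ∈ P, q ∈ pz z := fun q hq => mem_pz.2 (mem_mid.1 (hP hq)).2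
  refine ⟨hQ, ?_, ?_⟩
  · have e0 : ∏ q ∈ P.filter (fun q => q ∣ D), (1 - 1 / (q : ℝ))⁻¹ ≤ fd y z D := by
      unfold fd
      have hs2 : P.filter (fun q => q ∣ D) ⊆ (mid y z).filter (fun q => q ∣ D) := filter_subset_filter _ hP
      rw [← prod_sdiff hs2]
      apply le_mul_of_one_le_left
      · apply prod_nonneg
        intro q hq
        exact zero_le_one.trans (fac_inv_one (mem_mid.1 (hP (mem_filter.1 hq).1)).2.2)
      · apply one_le_prodR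
        intro q hq
        exact fac_inv_one (mem_mid.1 (mem_filter.1 (mem_sdiff.1 hq).1).1).2.2
    refine le_trans ?_ (mul_le_mul_of_nonneg_left e0 (by positivity))
    have e2 : VP P ^ 2 * ∏ q ∈ P.filter (fun q => q ∣ D), (1 - 1 / (q : ℝ))⁻¹ = ∏ q ∈ pz z, ((if q ∈ P then (1 - 1 / (q : ℝ)) ^ 2 else 1) *
        (if q ∈ P ∧ q ∣ D then (1 - 1 / (q : ℝ))⁻¹ else 1)) := by
      unfold VP
      rw [prod_mul_distrib, ← prod_filter, ← prod_filter, ← prod_pow]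
      congr 1
      · apply prod_congr _ (fun _ _ => rfl)
        ext q
        rw [mem_filter]
        exact ⟨fun h => ⟨hsub q h, h⟩, fun h => h.2⟩
      · apply prod_congr _ (fun _ _ => rfl)
        ext q
        rw [mem_filter, mem_filter]
        exact ⟨fun h => ⟨hsub q h.1, h⟩, fun h => h.2⟩
    rw [e2]
    apply prod_le_prod
    · intro q hq
      have hpp := (mem_pz.1 hq).2
      have hp0 : (0 : ℝ) < q := by exact_mod_cast hpp.pos
      have : (nuB Q q : ℝ) / q ≤ 1 := by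
        rw [div_le_one hp0]
        exact_mod_cast nuB_le Q q
      linarith
    · intro q hq
      have hpp := (mem_pz.1 hq).2
      have hp0 : (0 : ℝ) < q := by exact_mod_cast hpp.pos
      have hfp := fac_pos hpp
      by_cases hy : q ∈ P
      · obtain ⟨r1, hr1, hd1⟩ := rootZ_ex q α β hpp (hα q hy)
        obtain ⟨r2, hr2, hd2⟩ := rootZ_ex q α β' hpp (hα q hy)
        have m1 : r1 ∈ (range q).filter (fun r => Q q r) := mem_filter.2 ⟨mem_range.2 hr1, (hQd _ _).2 ⟨hy, Or.inl hd1⟩⟩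
        have m2 : r2 ∈ (range q).filter (fun r => Q q r) := mem_filter.2 ⟨mem_range.2 hr2, (hQd _ _).2 ⟨hy, Or.inr hd2⟩⟩
        rw [if_pos hy]
        by_cases hpD : q ∣ D
        · rw [if_pos ⟨hy, hpD⟩]
          have : (1 : ℝ) ≤ nuB Q q := by
            have : 0 < nuB Q q := by
              unfold nuB
              exact card_pos.2 ⟨r1, m1⟩
            exact_mod_cast this
          have h5 : (1 - 1 / (q : ℝ)) ^ 2 * (1 - 1 / (q : ℝ))⁻¹ = 1 - 1 / (q : ℝ) := by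
            field_simp
          rw [h5]
          gcongr
        · rw [if_neg (fun h => hpD h.2), mul_one]
          have hne : r1 ≠ r2 := by
            intro h
            rw [← h] at hd2
            exact hpD (hD q hy r1 hd1 hd2)
          have : (2 : ℝ) ≤ nuB Q q := by
            have : 1 < nuB Q q := by
              unfold nuB
              rw [one_lt_card]
              exact ⟨r1, m1, r2, m2, hne⟩
            exact_mod_cast this
          have h5 : 2 / (q : ℝ) ≤ (nuB Q q : ℝ) / q := by gcongr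
          have h6 : (1 - 1 / (q : ℝ)) ^ 2 = 1 - 2 / q + (1 / (q : ℝ)) ^ 2 := by ring
          rw [h6]
          have h7 : 0 ≤ (1 / (q : ℝ)) ^ 2 := by positivity
          linarith
      · rw [if_neg hy, if_neg (fun h => hy h.1)]
        have : 0 ≤ (nuB Q q : ℝ) / q := by positivity
        linarith
  · intro N
    apply filter_congr
    intro n _
    constructor
    · intro h
      exact ⟨fun q hq hd => h q (hsub q hq) ((hQd _ _).2 ⟨hq, Or.inl hd⟩),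
        fun q hq hd => h q (hsub q hq) ((hQd _ _).2 ⟨hq, Or.inr hd⟩)⟩
    · rintro ⟨ha, hb⟩ q _ hq
      obtain ⟨hq, hd | hd⟩ := (hQd _ _).1 hq
      · exact ha q hq hd
      · exact hb q hq hd

open Classical in
/-- Chebyshev's inequality with relative errors -/
lemma chebR (S Gs : Finset ℕ) (P : ℕ → ℕ → Prop) (N V η δ₁ δ r m : ℝ) (hN : (Gs.card : ℝ) = N) (F : ℕ → ℕ → ℝ)
    (hV0 : 0 < V) (hV : V ≤ 1) (hδ : 0 < δ) (hδ₁ : 0 ≤ δ₁) (hm : (S.card : ℝ) = m) (hr : 0 ≤ r)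
    (h1 : ∀ s ∈ S, N * ((1 - δ₁) * V - r) ≤ ((Gs.filter (fun g => P s g)).card : ℝ))
    (h2 : ∀ s ∈ S, ∀ t ∈ S.erase s, ((Gs.filter (fun g => P s g ∧ P t g)).card : ℝ) ≤ N * ((1 + δ₁) * (V ^ 2 * F s t) + r))
    (h3 : ∀ s ∈ S, ∑ t ∈ S.erase s, F s t ≤ (1 + η) * m) :
    ((Gs.filter (fun g => ((S.filter (fun s => P s g)).card : ℝ) < (1 - δ) * (m * V))).card : ℝ) * (δ * (m * V)) ^ 2 ≤
      N * (((1 + δ₁) * (1 + η) - 1 + 2 * δ₁) * (m * V) ^ 2 + m + 3 * (m ^ 2 * r)) := by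
  obtain ⟨i, hi⟩ : ∃ i : ℕ → ℕ → ℝ, i = fun s g => if P s g then 1 else 0 := ⟨_, rfl⟩
  obtain ⟨X, hX⟩ : ∃ X : ℕ → ℝ, X = fun g => ∑ s ∈ S, i s g := ⟨_, rfl⟩
  have hm0 : 0 ≤ m := by rw [← hm]; exact Nat.cast_nonneg _
  have hN0 : 0 ≤ N := by rw [← hN]; exact Nat.cast_nonneg _
  have hXc : ∀ g, X g = ((S.filter (fun s => P s g)).card : ℝ) := by
    intro g
    rw [hX, hi]
    simp only
    rw [← sum_filter, sum_const, nsmul_eq_mul, mul_one]
  have hc1 : ∀ s, ∑ g ∈ Gs, i s g = ((Gs.filter (fun g => P s g)).card : ℝ) := by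
    intro s
    rw [hi]
    simp only
    rw [← sum_filter, sum_const, nsmul_eq_mul, mul_one]
  have hc2 : ∀ s t, ∑ g ∈ Gs, (i s g * i t g) = ((Gs.filter (fun g => P s g ∧ P t g)).card : ℝ) := by
    intro s t
    have : ∀ g, i s g * i t g = if P s g ∧ P t g then 1 else 0 := by
      intro g
      rw [hi]
      by_cases ha : P s g <;> by_cases hb : P t g <;> simp [ha, hb]
    rw [sum_congr rfl (fun g _ => this g), ← sum_filter, sum_const, nsmul_eq_mul, mul_one]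
  have hS1 : m * (N * ((1 - δ₁) * V - r)) ≤ ∑ g ∈ Gs, X g := by
    have e0 : ∑ g ∈ Gs, X g = ∑ s ∈ S, ∑ g ∈ Gs, i s g := by
      rw [hX, sum_comm]
    rw [e0]
    have : ∑ _s ∈ S, (N * ((1 - δ₁) * V - r)) ≤ ∑ s ∈ S, ∑ g ∈ Gs, i s g := by
      apply sum_le_sum
      intro s hs
      rw [hc1]
      exact h1 s hs
    rwa [sum_const, nsmul_eq_mul, hm] at this
  have hS2 : ∑ g ∈ Gs, X g ^ 2 ≤ m * (N * (1 + ((1 + δ₁) * (V ^ 2 * ((1 + η) * m)) + m * r))) := by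
    have e1 : ∑ g ∈ Gs, X g ^ 2 = ∑ s ∈ S, ∑ t ∈ S, ∑ g ∈ Gs, (i s g * i t g) := by
      have : ∀ g, X g ^ 2 = ∑ s ∈ S, ∑ t ∈ S, (i s g * i t g) := by
        intro g
        rw [hX, sq, sum_mul_sum]
      simp_rw [this]
      rw [sum_comm]
      apply sum_congr rfl
      intro s _
      rw [sum_comm]
    rw [e1]
    have : ∀ s ∈ S, ∑ t ∈ S, ∑ g ∈ Gs, (i s g * i t g) ≤ N * (1 + ((1 + δ₁) * (V ^ 2 * ((1 + η) * m)) + m * r)) := by
      intro s hs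
      rw [← add_sum_erase S _ hs, mul_add, mul_one]
      apply add_le_add
      · rw [hc2, ← hN]
        exact_mod_cast card_le_card (filter_subset _ _)
      · calc ∑ t ∈ S.erase s, ∑ g ∈ Gs, (i s g * i t g) ≤ ∑ t ∈ S.erase s, N * ((1 + δ₁) * (V ^ 2 * F s t) + r) := by
              apply sum_le_sum
              intro t ht
              rw [hc2]
              exact h2 s hs t ht
          _ = N * ((1 + δ₁) * (V ^ 2 * ∑ t ∈ S.erase s, F s t) + ((S.erase s).card : ℝ) * r) := by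
              rw [← mul_sum, sum_add_distrib, sum_const, nsmul_eq_mul, mul_sum, mul_sum]
          _ ≤ N * ((1 + δ₁) * (V ^ 2 * ((1 + η) * m)) + m * r) := by
              have : ((S.erase s).card : ℝ) ≤ m := by
                rw [← hm]
                exact_mod_cast card_le_card (erase_subset _ _)
              have := h3 s hs
              gcongr
    calc ∑ s ∈ S, ∑ t ∈ S, ∑ g ∈ Gs, (i s g * i t g) ≤ ∑ _s ∈ S, (N * (1 + ((1 + δ₁) * (V ^ 2 * ((1 + η) * m)) + m * r))) := sum_le_sum this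
      _ = _ := by rw [sum_const, nsmul_eq_mul, hm]
  have hvar : ∑ g ∈ Gs, (X g - m * V) ^ 2 ≤ N * (((1 + δ₁) * (1 + η) - 1 + 2 * δ₁) * (m * V) ^ 2 + m + 3 * (m ^ 2 * r)) := by
    have e : ∑ g ∈ Gs, (X g - m * V) ^ 2 = ∑ g ∈ Gs, X g ^ 2 - 2 * (m * V) * ∑ g ∈ Gs, X g + N * (m * V) ^ 2 := by
      have e2 : N * (m * V) ^ 2 = ∑ _g ∈ Gs, (m * V) ^ 2 := by rw [sum_const, nsmul_eq_mul, hN]
      rw [e2, mul_sum, ← sum_sub_distrib, ← sum_add_distrib]
      apply sum_congr rfl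
      intro g _
      ring
    rw [e]
    have h5 : 2 * (m * V) * (m * (N * ((1 - δ₁) * V - r))) ≤ 2 * (m * V) * ∑ g ∈ Gs, X g := by
      apply mul_le_mul_of_nonneg_left hS1
      positivity
    have h6 : N * (m * V * (m * r)) ≤ N * (m * (m * r)) := by
      have : m * V ≤ m := by nlinarith
      apply mul_le_mul_of_nonneg_left _ hN0
      apply mul_le_mul_of_nonneg_right this
      positivity
    have e3 : m * (N * (1 + ((1 + δ₁) * (V ^ 2 * ((1 + η) * m)) + m * r))) - 2 * (m * V) * (m * (N * ((1 - δ₁) * V - r))) + N * (m * V) ^ 2 =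
        N * (((1 + δ₁) * (1 + η) - 1 + 2 * δ₁) * (m * V) ^ 2 + m + m ^ 2 * r) + 2 * (N * (m * V * (m * r))) := by ring
    have e4 : N * (((1 + δ₁) * (1 + η) - 1 + 2 * δ₁) * (m * V) ^ 2 + m + 3 * (m ^ 2 * r)) =
        N * (((1 + δ₁) * (1 + η) - 1 + 2 * δ₁) * (m * V) ^ 2 + m + m ^ 2 * r) + 2 * (N * (m * (m * r))) := by ring
    rw [e4]
    linarith
  refine le_trans ?_ hvar
  rw [card_eq_sum_ones, Nat.cast_sum, sum_mul, sum_filter]
  apply sum_le_sum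
  intro g _
  split_ifs with hg
  · rw [hXc]
    have h7 : δ * (m * V) ≤ m * V - ((S.filter (fun s => P s g)).card : ℝ) := by linarith
    have h8 : 0 ≤ δ * (m * V) := by positivity
    rw [Nat.cast_one, one_mul]
    nlinarith
  · exact sq_nonneg _

/-- the product over the primes is not small -/
lemma VP_low' (E : ℕ) : ∃ X₀ : ℕ, ∀ X : ℕ, X₀ ≤ X → ∀ y z : ℕ, y ≤ z → 1 ≤ z → (z : ℝ) ≤ Real.log X ^ E → ∀ P ⊆ mid y z,
    1 / Real.log X ≤ VP P := by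
  obtain ⟨N0, h0⟩ := Vz_inv_small E
  refine ⟨N0, fun X hX y z hyz hz hzE P hP => ?_⟩
  have h1 := h0 X hX z hz hzE
  have h2 : Vz z ≤ Vm y z := by
    rw [Vz_split y z hyz]
    exact mul_le_of_le_one_left (Vm_pos y z).le (Vz_le_one y)
  have hV := Vz_pos z
  have hL : 0 < Real.log X := lt_of_lt_of_le (inv_pos.2 hV) h1
  have h3 : 1 / Real.log X ≤ Vz z := by
    rw [div_le_iff₀ hL]
    rw [inv_le_iff_one_le_mul₀ hV] at h1
    linarith
  exact (h3.trans h2).trans (Vm_le_VP hP)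

set_option maxHeartbeats 1000000 in
open Classical in
theorem rough_ap (A : ℕ) (δ ε : ℝ) (hδ : 0 < δ) (hδ1 : δ ≤ 1) (hε : 0 < ε) (hε1 : ε ≤ 1) : ∃ K0 Q : ℕ, 1 ≤ K0 ∧ 1 ≤ Q ∧
    ∀ E : ℕ, ∃ X₀ : ℕ, ∀ X : ℕ, X₀ ≤ X →
    ∀ y z : ℕ, K0 * Real.log (Real.log X) ≤ y → y ≤ z → (z : ℝ) ≤ Real.log X ^ E → ∀ P : Finset ℕ, P ⊆ mid y z →
    ∀ l : ℕ, z ^ Q ≤ l → Real.log X ^ 8 ≤ l → ∀ S : Finset ℕ, S ⊆ Icc 1 X → (X : ℝ) ≤ S.card * Real.log X ^ A →
    ∀ (α : ℤ) (β : ℕ → ℤ), (∀ q ∈ P, ¬ (q : ℤ) ∣ α) →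
    (∀ s ∈ S, ∀ t ∈ S, ∀ q v : ℕ, (q : ℤ) ∣ α * v + β s → (q : ℤ) ∣ α * v + β t → q ∣ Nat.dist s t * (s + t)) →
    (((Icc 1 l).filter (fun v : ℕ => ((S.filter (fun s => ∀ q ∈ P, ¬ (q : ℤ) ∣ α * v + β s)).card : ℝ) <
      (1 - δ) * (S.card * VP P))).card : ℝ) ≤ ε * l := by
  obtain ⟨ρ, hρ⟩ : ∃ ρ : ℝ, ρ = ε * δ ^ 2 := ⟨_, rfl⟩
  have hρ0 : 0 < ρ := by rw [hρ]; positivity
  have hρ1 : ρ ≤ 1 := by
    rw [hρ]
    have : δ ^ 2 ≤ 1 := pow_le_one₀ hδ.le hδ1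
    nlinarith
  obtain ⟨η, hη⟩ : ∃ η : ℝ, η = ρ / 8 := ⟨_, rfl⟩
  obtain ⟨δ₁, hδ₁⟩ : ∃ δ₁ : ℝ, δ₁ = ρ / 32 := ⟨_, rfl⟩
  have hη0 : 0 < η := by rw [hη]; positivity
  have hδ₁0 : 0 < δ₁ := by rw [hδ₁]; positivity
  have hδ₁1 : δ₁ ≤ 1 := by rw [hδ₁]; linarith
  have hlη : 0 < Real.log (1 + η) := Real.log_pos (by linarith)
  obtain ⟨K0, hK0⟩ := exists_nat_ge (6 * ((A + 2) / Real.log (1 + η) + 1))
  obtain ⟨Q1, x1, hQ1, hs1⟩ := sys_fund 1 le_rfl δ₁ hδ₁0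
  obtain ⟨Q2, x2, hQ2, hs2⟩ := sys_fund 2 (by norm_num) δ₁ hδ₁0
  refine ⟨max K0 6, Q1 + Q2, by omega, by omega, fun E => ?_⟩
  obtain ⟨G3, hG3⟩ := VP_low' E
  obtain ⟨G4, hG4⟩ := ev_L' (max (Real.exp (x1 + x2 + 1)) (12 / ρ + 1))
  obtain ⟨G5, hG5⟩ := Pool.Agent.H373R2.T7.ev_log' (A + 8) 1
  refine ⟨G3 + G4 + G5 + 1, fun X hX y z hy hyz hz P hP l hl1 hl2 S hS hSc α β hα hβ => ?_⟩
  have b4 := hG4 X (by omega)
  have b5 := hG5 X (by omega)
  have b3 := hG3 X (by omega) y z hyz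
  obtain ⟨L, hL⟩ : ∃ L, L = Real.log (X : ℝ) := ⟨_, rfl⟩
  rw [← hL] at b3 b4 b5 hy hz hl2 hSc
  have hLx : Real.exp (x1 + x2 + 1) ≤ L := (le_max_left _ _).trans b4
  have hLρ : 12 / ρ + 1 ≤ L := (le_max_right _ _).trans b4
  have h12 : 0 < 12 / ρ := by positivity
  have hL1 : 1 ≤ L := by linarith
  have hL0 : 0 < L := by linarith
  obtain ⟨lk, hlk⟩ : ∃ lk, lk = Real.log L := ⟨_, rfl⟩
  rw [← hlk] at hy
  have hlkx : (x1 : ℝ) + x2 + 1 ≤ lk := by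
    rw [hlk]
    exact (Real.le_log_iff_exp_le hL0).2 hLx
  have hx10 : (0 : ℝ) ≤ x1 := Nat.cast_nonneg _
  have hx20 : (0 : ℝ) ≤ x2 := Nat.cast_nonneg _
  have hlk1 : 1 ≤ lk := by linarith
  have hK : ((max K0 6 : ℕ) : ℝ) * lk ≤ y := hy
  have hK6 : (6 : ℝ) ≤ ((max K0 6 : ℕ) : ℝ) := by exact_mod_cast le_max_right _ _
  have hKK : (K0 : ℝ) ≤ ((max K0 6 : ℕ) : ℝ) := by exact_mod_cast le_max_left _ _
  have h6y : 6 * lk ≤ y := (mul_le_mul_of_nonneg_right hK6 (by linarith)).trans hK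
  have hy6 : 6 ≤ y := by
    have : (6 : ℝ) ≤ y := by linarith
    exact_mod_cast this
  have hyx : x1 + x2 ≤ y := by
    have : ((x1 + x2 : ℕ) : ℝ) ≤ y := by push_cast; linarith
    exact_mod_cast this
  have hz1 : 1 ≤ z := by omega
  obtain ⟨V, hV⟩ : ∃ V, V = VP P := ⟨_, rfl⟩
  have hV0 : 0 < V := by rw [hV]; exact VP_pos hP
  have hV1 : V ≤ 1 := by rw [hV]; exact VP_le hP
  have hVL : 1 / L ≤ V := by rw [hV]; exact b3 hz1 hz P hP
  obtain ⟨m, hm⟩ : ∃ m : ℝ, m = (S.card : ℝ) := ⟨_, rfl⟩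
  rw [← hm] at hSc
  have hX0 : (0 : ℝ) < X := by exact_mod_cast (by omega : 0 < X)
  have hX1 : (1 : ℝ) ≤ X := by exact_mod_cast (by omega : 1 ≤ X)
  have hm8 : L ^ 8 ≤ m := by
    have e1 : √(X : ℝ) ≤ X := by
      rw [Real.sqrt_le_left (by positivity)]
      exact le_self_pow₀ hX1 (by norm_num)
    have e2 : L ^ 8 * L ^ A ≤ m * L ^ A := by
      rw [← pow_add, add_comm 8 A]
      linarith
    exact le_of_mul_le_mul_right e2 (by positivity)
  have hm0 : 0 < m := lt_of_lt_of_le (by positivity) hm8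
  obtain ⟨n, hn⟩ : ∃ n, y / 6 = n + 1 := ⟨y / 6 - 1, by omega⟩
  have hn6 : 6 * (n + 1) ≤ y := by omega
  have hpow : 4 * (X : ℝ) ≤ (1 + η) ^ (n + 1) * S.card := by
    have h1 : 4 * L ^ A ≤ (1 + η) ^ (n + 1) := by
      have h2 : ((n + 1 : ℕ) : ℝ) ≥ (y : ℝ) / 6 - 1 := by
        have : y < 6 * (n + 1) + 6 := by omega
        have h3 : (y : ℝ) < 6 * ((n + 1 : ℕ) : ℝ) + 6 := by exact_mod_cast this
        linarith
      have h3 : (y : ℝ) / 6 - 1 ≥ (K0 / 6 - 1) * lk := by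
        have h0 : (K0 : ℝ) * lk ≤ y := le_trans (mul_le_mul_of_nonneg_right hKK (by linarith)) hK
        have h1 : ((K0 : ℝ) / 6 - 1) * lk = (K0 * lk) / 6 - lk := by ring
        rw [h1]
        linarith
      have h4 : (A + 2) / Real.log (1 + η) ≤ K0 / 6 - 1 := by linarith
      have h5 : (A + 2 : ℝ) ≤ (K0 / 6 - 1) * Real.log (1 + η) := by
        rwa [div_le_iff₀ hlη] at h4
      have h6 : Real.log (4 * L ^ A) ≤ ((n + 1 : ℕ) : ℝ) * Real.log (1 + η) := by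
        rw [Real.log_mul (by norm_num) (by positivity), Real.log_pow, ← hlk]
        have h7 : Real.log 4 ≤ 2 := by
          have : Real.log 4 = 2 * Real.log 2 := by
            rw [show (4 : ℝ) = 2 ^ 2 by norm_num, Real.log_pow]
            norm_num
          rw [this]
          have := Real.log_two_lt_d9
          linarith
        calc Real.log 4 + A * lk ≤ 2 * lk + A * lk := by linarith
          _ = (A + 2) * lk := by ring
          _ ≤ ((K0 / 6 - 1) * Real.log (1 + η)) * lk := by gcongr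
          _ = ((K0 / 6 - 1) * lk) * Real.log (1 + η) := by ring
          _ ≤ ((n + 1 : ℕ) : ℝ) * Real.log (1 + η) := by gcongr; linarith
      rw [← Real.log_pow] at h6
      exact (Real.log_le_log_iff (by positivity) (by positivity)).1 h6
    rw [← hm]
    calc 4 * (X : ℝ) ≤ 4 * (m * L ^ A) := by gcongr
      _ = 4 * L ^ A * m := by ring
      _ ≤ _ := by gcongr
  obtain ⟨Pr, hPr⟩ : ∃ Pr : ℕ → ℕ → Prop, ∀ s v, Pr s v ↔ (∀ q ∈ P, ¬ (q : ℤ) ∣ α * (v : ℕ) + β s) := ⟨_, fun _ _ => Iff.rfl⟩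
  obtain ⟨r, hr⟩ : ∃ r : ℝ, r = 1 / L ^ 4 := ⟨_, rfl⟩
  have hr0 : 0 ≤ r := by rw [hr]; positivity
  have hl0 : (0 : ℝ) < l := lt_of_lt_of_le (by positivity) hl2
  have hsq : √(l : ℝ) ≤ l * r := by
    have e1 : L ^ 4 ≤ √(l : ℝ) := by
      apply Real.le_sqrt_of_sq_le
      rw [← pow_mul]
      exact hl2
    rw [hr, mul_one_div, le_div_iff₀ (by positivity)]
    calc √(l : ℝ) * L ^ 4 ≤ √(l : ℝ) * √(l : ℝ) := mul_le_mul_of_nonneg_left e1 (Real.sqrt_nonneg _)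
      _ = l := Real.mul_self_sqrt hl0.le
  have hzQ1 : z ^ Q1 ≤ l := (Nat.pow_le_pow_right hz1 (by omega)).trans hl1
  have hzQ2 : z ^ Q2 ≤ l := (Nat.pow_le_pow_right hz1 (by omega)).trans hl1
  have c1 : ∀ s ∈ S, (l : ℝ) * ((1 - δ₁) * V - r) ≤ (((Icc 1 l).filter (fun v => Pr s v)).card : ℝ) := by
    intro s _
    obtain ⟨QQ, hQQ⟩ : ∃ QQ : ℕ → ℕ → Prop, ∀ q n, QQ q n ↔ (q ∈ P ∧ (q : ℤ) ∣ α * (n : ℕ) + β s) := ⟨_, fun _ _ => Iff.rfl⟩
    obtain ⟨p1, p2, p3⟩ := prod_one y z P hP α (β s) hα QQ hQQ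
    have p4 := hs1 l z (by omega) hzQ1 QQ p1 l
    rw [p3] at p4
    have p5 := (abs_le.1 p4).1
    have e1 : (Icc 1 l).filter (fun v => Pr s v) = (Icc 1 l).filter (fun v : ℕ => ∀ q ∈ P, ¬ (q : ℤ) ∣ α * v + β s) := by
      ext v
      rw [mem_filter, mem_filter, hPr]
    rw [e1]
    have p6 : (l : ℝ) * ((1 - δ₁) * V) ≤ (1 - δ₁) * (l * ∏ q ∈ pz z, (1 - (nuB QQ q : ℝ) / q)) := by
      rw [hV]
      have : (l : ℝ) * VP P ≤ l * ∏ q ∈ pz z, (1 - (nuB QQ q : ℝ) / q) := mul_le_mul_of_nonneg_left p2 hl0.le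
      have := mul_le_mul_of_nonneg_left this (by linarith : 0 ≤ 1 - δ₁)
      linarith
    linarith
  have c2 : ∀ s ∈ S, ∀ t ∈ S.erase s, (((Icc 1 l).filter (fun v => Pr s v ∧ Pr t v)).card : ℝ) ≤
      l * ((1 + δ₁) * (V ^ 2 * FF y z s t) + r) := by
    intro s hs t ht
    obtain ⟨QQ, hQQ⟩ : ∃ QQ : ℕ → ℕ → Prop, ∀ q n, QQ q n ↔ (q ∈ P ∧ ((q : ℤ) ∣ α * (n : ℕ) + β s ∨ (q : ℤ) ∣ α * (n : ℕ) + β t)) :=
      ⟨_, fun _ _ => Iff.rfl⟩
    obtain ⟨p1, p2, p3⟩ := prod_two y z P hP α (β s) (β t) (Nat.dist s t * (s + t)) hα (by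
      intro q _ v h1 h2
      exact hβ s hs t (mem_of_mem_erase ht) q v h1 h2) QQ hQQ
    have p4 := hs2 l z (by omega) hzQ2 QQ p1 l
    rw [p3] at p4
    have p5 := (abs_le.1 p4).2
    have e1 : (Icc 1 l).filter (fun v => Pr s v ∧ Pr t v) = (Icc 1 l).filter (fun v : ℕ =>
        (∀ q ∈ P, ¬ (q : ℤ) ∣ α * v + β s) ∧ (∀ q ∈ P, ¬ (q : ℤ) ∣ α * v + β t)) := by
      ext v
      rw [mem_filter, mem_filter, hPr, hPr]
    rw [e1]
    have h5 : fd y z (Nat.dist s t * (s + t)) ≤ FF y z s t := fd_mul _ _ _ _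
    have h6 : VP P ^ 2 * fd y z (Nat.dist s t * (s + t)) ≤ VP P ^ 2 * FF y z s t :=
      mul_le_mul_of_nonneg_left h5 (by positivity)
    have h7 : (l : ℝ) * ∏ q ∈ pz z, (1 - (nuB QQ q : ℝ) / q) ≤ l * (V ^ 2 * FF y z s t) := by
      rw [hV]
      exact mul_le_mul_of_nonneg_left (p2.trans h6) hl0.le
    have h8 := mul_le_mul_of_nonneg_left h7 (by linarith : 0 ≤ 1 + δ₁)
    nlinarith
  have c3 : ∀ s ∈ S, ∑ t ∈ S.erase s, FF y z s t ≤ (1 + η) * m := fun s hs => by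
    have := FF_sum y z n X (by omega) hn6 S hS η hη0 hpow s hs
    rwa [← hm] at this
  have key := chebR S (Icc 1 l) Pr l V η δ₁ δ r m (by rw [Nat.card_Icc, Nat.add_sub_cancel]) (FF y z) hV0 hV1 hδ hδ₁0.le hm.symm hr0 c1 c2 c3
  have e2 : ((Icc 1 l).filter (fun v : ℕ => ((S.filter (fun s => ∀ q ∈ P, ¬ (q : ℤ) ∣ α * v + β s)).card : ℝ) <
      (1 - δ) * (S.card * VP P))) =
      (Icc 1 l).filter (fun v => ((S.filter (fun s => Pr s v)).card : ℝ) < (1 - δ) * (m * V)) := by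
    apply filter_congr
    intro v _
    have e3 : S.filter (fun s => ∀ q ∈ P, ¬ (q : ℤ) ∣ α * (v : ℕ) + β s) = S.filter (fun s => Pr s v) := by
      ext s
      rw [mem_filter, mem_filter, hPr]
    rw [e3, ← hm, ← hV]
  rw [e2]
  obtain ⟨cnt, hcnt⟩ : ∃ cnt : ℝ, cnt = (((Icc 1 l).filter (fun v => ((S.filter (fun s => Pr s v)).card : ℝ) < (1 - δ) * (m * V))).card : ℝ) := ⟨_, rfl⟩
  rw [← hcnt] at key ⊢
  have hmV : 0 < m * V := by positivity
  have hV2 : 1 / L ^ 2 ≤ V ^ 2 := by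
    have := pow_le_pow_left₀ (by positivity) hVL 2
    rw [div_pow, one_pow] at this
    exact this
  have hc : 12 ≤ ρ * L := by
    have h1 : 12 / ρ ≤ L := by linarith
    rw [div_le_iff₀ hρ0] at h1
    linarith
  have k0 : ((1 + δ₁) * (1 + η) - 1 + 2 * δ₁) * (m * V) ^ 2 ≤ ρ / 4 * (m * V) ^ 2 := by
    apply mul_le_mul_of_nonneg_right _ (by positivity)
    rw [hη, hδ₁]
    nlinarith
  have k1 : m ≤ ρ / 4 * (m * V) ^ 2 := by
    have h3 : 1 ≤ ρ / 4 * (m * V ^ 2) := by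
      have h4 : L ≤ m * V ^ 2 := by
        calc L ≤ L ^ 6 := le_self_pow₀ hL1 (by norm_num)
          _ = L ^ 8 * (1 / L ^ 2) := by field_simp
          _ ≤ m * V ^ 2 := mul_le_mul hm8 hV2 (by positivity) hm0.le
      have h5 : ρ / 4 * L ≤ ρ / 4 * (m * V ^ 2) := mul_le_mul_of_nonneg_left h4 (by positivity)
      linarith
    calc m = m * 1 := by ring
      _ ≤ m * (ρ / 4 * (m * V ^ 2)) := mul_le_mul_of_nonneg_left h3 hm0.le
      _ = _ := by ring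
  have k2 : 3 * (m ^ 2 * r) ≤ ρ / 4 * (m * V) ^ 2 := by
    have h2 : 3 * r ≤ ρ / 4 * V ^ 2 := by
      have h3 : 3 / L ^ 4 ≤ ρ / 4 * (1 / L ^ 2) := by
        rw [mul_one_div, div_le_div_iff₀ (by positivity) (by positivity)]
        have h4 : L ≤ L ^ 2 := le_self_pow₀ hL1 (by norm_num)
        have h5 : 3 * L ^ 2 ≤ (ρ / 4 * L ^ 2) * L ^ 2 := by
          apply mul_le_mul_of_nonneg_right _ (by positivity)
          nlinarith
        linarith
      calc 3 * r = 3 / L ^ 4 := by rw [hr]; ring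
        _ ≤ ρ / 4 * (1 / L ^ 2) := h3
        _ ≤ _ := mul_le_mul_of_nonneg_left hV2 (by positivity)
    calc 3 * (m ^ 2 * r) = m ^ 2 * (3 * r) := by ring
      _ ≤ m ^ 2 * (ρ / 4 * V ^ 2) := mul_le_mul_of_nonneg_left h2 (by positivity)
      _ = _ := by ring
  have k3 : cnt * (δ * (m * V)) ^ 2 ≤ (ε * l) * (δ * (m * V)) ^ 2 := by
    refine key.trans ?_
    have h2 : (ε * l) * (δ * (m * V)) ^ 2 = l * (ρ * (m * V) ^ 2) := by rw [hρ]; ring
    rw [h2]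
    apply mul_le_mul_of_nonneg_left _ hl0.le
    have : 0 ≤ ρ * (m * V) ^ 2 := by positivity
    linarith
  exact le_of_mul_le_mul_right k3 (by positivity)

end Pool.Agent.V5helper23.KQ
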