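import Pool.Agent.V5helper23.KQ.SvD
import Pool.Agent.V5helper23.KQ.Rough
import Pool.Agent.N625.PT.X6

set_option autoImplicit false

/-! All arithmetic progressions with almost all differences: sums with the elements of an arbitrary dense set of primes. -/

namespace Pool.Agent.V5helper23.KQ
open Finset
open Pool.Agent.H373R2.T7 (pz mem_pz Vz Vz_pos Vz_le_one ev_L' lamI lamzI lamz energy)
open Pool.Agent.Y877.SX (mid Vm mem_mid Vm_pos Vz_split primorial_le_log)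
open Pool.Agent.N625.PT (VP VP_pos Vm_le_VP pp_one dvd_dist)
open Pool.Agent.V5helper23.KP (Long Short)

/-- the model at the elements free of small primes -/
lemma lamz_free' (y z : ℕ) (P : Finset ℕ) (hP : P ⊆ mid y z) (Y : ℤ) (s : ℕ)
    (hY : ∀ q : ℕ, q.Prime → q ≤ z → q ∉ P → ¬ (q : ℤ) ∣ Y - s) (hpos : 0 < Y - s) :
    lamzI z (Y - s) = if ∀ q ∈ P, ¬ (q : ℤ) ∣ Y - s then (Vz z)⁻¹ else 0 := by
  unfold lamzI
  rw [if_pos (by omega)]
  unfold lamz
  have e1 : (((Y - s).toNat : ℕ) : ℤ) = Y - s := Int.toNat_of_nonneg hpos.le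
  have h1 : (∀ q ∈ pz z, ¬ q ∣ (Y - s).toNat) ↔ (∀ q ∈ P, ¬ (q : ℤ) ∣ Y - s) := by
    constructor
    · intro h q hq hd
      apply h q (mem_pz.2 (mem_mid.1 (hP hq)).2)
      rw [← Int.natCast_dvd_natCast, e1]
      exact hd
    · intro h q hq hd
      rw [mem_pz] at hq
      rw [← Int.natCast_dvd_natCast, e1] at hd
      by_cases hqP : q ∈ P
      · exact h q hqP hd
      · exact hY q hq.2 hq.1 hqP hd
  by_cases h : ∀ q ∈ P, ¬ (q : ℤ) ∣ Y - s
  · rw [if_pos h, if_pos (h1.2 h)]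
  · rw [if_neg h, if_neg (fun h2 => h (h1.1 h2))]

open Classical in
lemma assemble' (X y z : ℕ) (δ : ℝ) (hδ0 : 0 < δ) (hδ8 : δ ≤ 1 / 8) (hyz : y ≤ z) (P : Finset ℕ) (hP : P ⊆ mid y z)
    (Y : ℤ) (S S' : Finset ℕ) (hS : S ⊆ Icc 1 X)
    (hS' : S' = S.filter (fun s => z < s)) (hSS : (1 - δ) * S.card ≤ S'.card)
    (hY : ∀ q : ℕ, q.Prime → q ≤ z → q ∉ P → ∀ s ∈ S', ¬ (q : ℤ) ∣ Y - (s : ℕ)) (hpos : ∀ s ∈ S, 0 < Y - (s : ℕ))
    (Nn : ℕ) (hN : 1 ≤ Nn) (hle : ∀ s ∈ S, Y - (s : ℕ) ≤ Nn) (Lg : ℝ) (hLg0 : 0 < Lg) (hlog : Real.log Nn ≤ (1 + δ) * Lg)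
    (hpp : 2 * √(Nn : ℝ) * Real.log Nn ≤ δ * S'.card)
    (hB1 : (1 - δ) * (S'.card * VP P) ≤ ((S'.filter (fun s => ∀ q ∈ P, ¬ (q : ℤ) ∣ Y - (s : ℕ))).card : ℝ))
    (hB2 : |∑ n ∈ Icc 1 X, (if n ∈ S' then (1 : ℝ) else 0) * (lamI (Y - (n : ℕ)) - lamzI z (Y - (n : ℕ)))| ≤ δ * S'.card) :
    (1 - 8 * δ) * (S.card / (Vz y * Lg)) ≤ ((S.filter (fun s => (Y - (s : ℕ)).toNat.Prime)).card : ℝ) := by
  obtain ⟨m, hm⟩ : ∃ m : ℝ, m = S'.card := ⟨_, rfl⟩
  obtain ⟨n, hn⟩ : ∃ n : ℝ, n = S.card := ⟨_, rfl⟩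
  rw [← hm] at hSS hpp hB1 hB2
  rw [← hn] at hSS ⊢
  have hn0 : 0 ≤ n := by rw [hn]; exact Nat.cast_nonneg _
  have hm0 : 0 ≤ m := by rw [hm]; exact Nat.cast_nonneg _
  have hsub : S' ⊆ S := by rw [hS']; exact filter_subset _ _
  have hVz := Vz_pos z
  have hVy := Vz_pos y
  have hVm := Vm_pos y z
  have hVy1 : 1 ≤ (Vz y)⁻¹ := (one_le_inv₀ hVy).2 (Vz_le_one y)
  have hsplit := Vz_split y z hyz
  -- the two sums
  have e0 : ∀ f : ℕ → ℝ, ∑ n ∈ Icc 1 X, (if n ∈ S' then (1 : ℝ) else 0) * f n = ∑ s ∈ S', f s := by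
    intro f
    have : (Icc 1 X).filter (fun a => a ∈ S') = S' := by
      ext a
      rw [mem_filter]
      exact ⟨fun h => h.2, fun h => ⟨hS (hsub h), h⟩⟩
    conv_rhs => rw [← this, sum_filter]
    apply sum_congr rfl
    intro a _
    split_ifs <;> simp
  rw [e0 (fun n => lamI (Y - (n : ℕ)) - lamzI z (Y - (n : ℕ))), sum_sub_distrib] at hB2
  have h1 : ∑ s ∈ S', lamzI z (Y - (s : ℕ)) = (Vz z)⁻¹ * ((S'.filter (fun s => ∀ q ∈ P, ¬ (q : ℤ) ∣ Y - (s : ℕ))).card : ℝ) := by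
    have : ∀ s ∈ S', lamzI z (Y - (s : ℕ)) = if ∀ q ∈ P, ¬ (q : ℤ) ∣ Y - (s : ℕ) then (Vz z)⁻¹ else 0 := by
      intro s hs
      have hs2 := hs
      rw [hS', mem_filter] at hs2
      rw [lamz_free' y z P hP Y s (fun q h1 h2 h3 => hY q h1 h2 h3 s hs) (hpos s hs2.1)]
    rw [sum_congr rfl this, ← sum_filter, sum_const, nsmul_eq_mul, mul_comm]
  have h2 : (1 - δ) * (m * (Vz y)⁻¹) ≤ ∑ s ∈ S', lamzI z (Y - (s : ℕ)) := by
    rw [h1]
    have g1 : (1 - δ) * (m * Vm y z) ≤ (1 - δ) * (m * VP P) := by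
      apply mul_le_mul_of_nonneg_left _ (by linarith)
      exact mul_le_mul_of_nonneg_left (Vm_le_VP hP) hm0
    have g2 := mul_le_mul_of_nonneg_left (g1.trans hB1) (inv_pos.2 hVz).le
    refine le_trans (le_of_eq ?_) g2
    rw [hsplit, mul_inv]
    field_simp
  have h3 : (1 - δ) * (m * (Vz y)⁻¹) - δ * m ≤ ∑ s ∈ S', lamI (Y - (s : ℕ)) := by
    have := (abs_le.1 hB2).1
    linarith
  have hcount : ((S'.filter (fun s => (Y - (s : ℕ)).toNat.Prime)).card : ℝ) ≤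
      ((S.filter (fun s => (Y - (s : ℕ)).toNat.Prime)).card : ℝ) := by
    exact_mod_cast card_le_card (filter_subset_filter _ hsub)
  have h4 : ∑ s ∈ S', lamI (Y - (s : ℕ)) ≤ ((S.filter (fun s => (Y - (s : ℕ)).toNat.Prime)).card : ℝ) * Real.log Nn + δ * m := by
    have hlog0 : 0 ≤ Real.log Nn := Real.log_natCast_nonneg Nn
    refine le_trans ?_ (add_le_add (mul_le_mul_of_nonneg_right hcount hlog0) hpp)
    have hpo := pp_one Nn hN S' (fun s => (Y - (s : ℕ)).toNat) (by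
      intro s hs t ht hst
      have q1 := hpos s (hsub hs)
      have q2 := hpos t (hsub ht)
      simp only at hst
      omega) (by
      intro s hs
      have q1 := hpos s (hsub hs)
      have q2 := hle s (hsub hs)
      constructor <;> omega)
    refine le_trans ?_ (add_le_add_right hpo _)
    rw [card_eq_sum_ones, Nat.cast_sum, sum_mul, sum_filter, ← sum_add_distrib]
    apply sum_le_sum
    intro s hs
    have q1 := hpos s (hsub hs)
    have q2 := hle s (hsub hs)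
    unfold lamI
    rw [if_pos (by omega)]
    by_cases hp : (Y - (s : ℕ)).toNat.Prime
    · rw [if_pos hp, if_pos hp, ArithmeticFunction.vonMangoldt_apply_prime hp, Nat.cast_one, one_mul, add_zero]
      apply Real.log_le_log (by exact_mod_cast hp.pos)
      have : (Y - (s : ℕ)).toNat ≤ Nn := by omega
      exact_mod_cast this
    · rw [if_neg hp, if_neg hp, zero_add]
  obtain ⟨c, hc⟩ : ∃ c : ℝ, c = ((S.filter (fun s => (Y - (s : ℕ)).toNat.Prime)).card : ℝ) := ⟨_, rfl⟩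
  rw [← hc] at h4 ⊢
  have hc0 : 0 ≤ c := by rw [hc]; exact Nat.cast_nonneg _
  have h5 : (1 - 3 * δ) * (m * (Vz y)⁻¹) ≤ c * ((1 + δ) * Lg) := by
    have g1 : δ * m * 1 ≤ δ * m * (Vz y)⁻¹ := mul_le_mul_of_nonneg_left hVy1 (by positivity)
    have g2 := mul_le_mul_of_nonneg_left hlog hc0
    nlinarith
  have h6 : (1 - 3 * δ) * (((1 - δ) * n) * (Vz y)⁻¹) ≤ c * ((1 + δ) * Lg) := by
    refine le_trans ?_ h5
    apply mul_le_mul_of_nonneg_left _ (by linarith)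
    exact mul_le_mul_of_nonneg_right hSS (inv_pos.2 hVy).le
  have h7 : (1 - 8 * δ) * (1 + δ) * (n * (Vz y)⁻¹) ≤ (1 - 3 * δ) * (((1 - δ) * n) * (Vz y)⁻¹) := by
    have e1 : (1 - 3 * δ) * (((1 - δ) * n) * (Vz y)⁻¹) = ((1 - 3 * δ) * (1 - δ)) * (n * (Vz y)⁻¹) := by ring
    rw [e1]
    apply mul_le_mul_of_nonneg_right _ (by positivity)
    nlinarith
  have h8 : (1 - 8 * δ) * (n * (Vz y)⁻¹) * (1 + δ) ≤ (c * Lg) * (1 + δ) := by
    have := h7.trans h6
    linarith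
  have h9 : (1 - 8 * δ) * (n * (Vz y)⁻¹) ≤ c * Lg := le_of_mul_le_mul_right h8 (by linarith)
  have e9 : (1 - 8 * δ) * (n / (Vz y * Lg)) = ((1 - 8 * δ) * (n * (Vz y)⁻¹)) / Lg := by
    field_simp
  rw [e9, div_le_iff₀ hLg0]
  exact h9

/-- reflection of an interval -/
lemma sum_refl (X : ℕ) (f : ℕ → ℝ) : ∑ n ∈ Icc 1 X, f n = ∑ k ∈ Icc 1 X, f (X + 1 - k) := by
  apply sum_bij (fun n _ => X + 1 - n)
  · intro n hn
    rw [mem_Icc] at hn ⊢
    omega
  · intro a ha b hb h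
    rw [mem_Icc] at ha hb
    omega
  · intro k hk
    rw [mem_Icc] at hk
    exact ⟨X + 1 - k, mem_Icc.2 (by omega), by omega⟩
  · intro n hn
    rw [mem_Icc] at hn
    congr 1
    omega

/-- Differences from an interval: `r 1, ..., r n` are `n ≥ log ^ B' X` consecutive integers, and `l ≥ log ^ B X`,
`n l ≥ X / log ^ C X`. -/
def LongLine (B B' C X n l : ℕ) (r : ℕ → ℤ) : Prop :=
  (∃ u₀ : ℤ, ∀ m : ℕ, r m = u₀ + m) ∧ Real.log X ^ B ≤ l ∧ Real.log X ^ B' ≤ n ∧ (X : ℝ) ≤ Real.log X ^ C * (n * l)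

/-- Differences from a thin family: the differences `r 1, ..., r n` are arbitrary integers in `[-X, X]` with nearly
minimal additive energy of order `p`, that is, the energy is at most `log ^ C X * n ^ (2 * p) / X`, and
`log ^ B X ≤ l ≤ log ^ C X`. -/
def ShortLine (p B C X n l : ℕ) (r : ℕ → ℤ) : Prop :=
  (∀ m ∈ Icc 1 n, |r m| ≤ X) ∧ (energy p n r : ℝ) * X ≤ Real.log X ^ C * (n : ℝ) ^ (2 * p) ∧
    Real.log X ^ B ≤ l ∧ (l : ℝ) ≤ Real.log X ^ C

/-- multiples of a small number -/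
lemma line_fam (p B₁ B₂ B' C K₁ X n l M : ℕ) (r : ℕ → ℤ) (hX : 1 ≤ Real.log X) (hB : B₁ ≤ B₂) (hM1 : 1 ≤ M)
    (hM : (M : ℝ) ≤ Real.log X ^ (2 * K₁)) (h : LongLine B₂ B' C X n l r ∨ ShortLine p B₂ C X n l r) :
    Long B₁ B' (C + 2 * K₁) X n r ((Icc 1 l).image (fun w : ℕ => (M : ℤ) * w)) ∨
      Short p B₁ (C + 2 * K₁) X n r ((Icc 1 l).image (fun w : ℕ => (M : ℤ) * w)) := by
  have hM0 : (0 : ℤ) < M := by exact_mod_cast hM1
  have hcard : ((Icc 1 l).image (fun w : ℕ => (M : ℤ) * w)).card = l := by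
    rw [card_image_of_injective _ (fun a b hab => by
      have := mul_left_cancel₀ hM0.ne' hab
      exact_mod_cast this), Nat.card_Icc, Nat.add_sub_cancel]
  have hL0 : 0 < Real.log X := by linarith
  rcases h with ⟨⟨u₀, g1⟩, g2, g3, g4⟩ | ⟨g1, g2, g3, g4⟩
  · left
    refine ⟨u₀, 0, M * l, g1, ?_, ?_, ?_, g3, ?_⟩
    · intro w hw
      rw [mem_image] at hw
      obtain ⟨v, hv, rfl⟩ := hw
      rw [mem_Icc] at hv
      rw [mem_Ioc, zero_add]
      constructor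
      · have : (0 : ℤ) < v := by exact_mod_cast hv.1
        positivity
      · push_cast
        exact mul_le_mul_of_nonneg_left (by exact_mod_cast hv.2) hM0.le
    · rw [hcard]
      push_cast
      apply mul_le_mul_of_nonneg_right _ (Nat.cast_nonneg _)
      exact hM.trans (pow_le_pow_right₀ hX (by omega))
    · rw [hcard]
      exact (pow_le_pow_right₀ hX hB).trans g2
    · refine g4.trans ?_
      push_cast
      have hM1' : (1 : ℝ) ≤ M := by exact_mod_cast hM1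
      have e1 : (n : ℝ) * l ≤ n * (M * l) := by
        apply mul_le_mul_of_nonneg_left _ (Nat.cast_nonneg _)
        exact le_mul_of_one_le_left (Nat.cast_nonneg _) hM1'
      exact mul_le_mul (pow_le_pow_right₀ hX (by omega)) e1 (by positivity) (by positivity)
  · right
    refine ⟨g1, ?_, 0, ?_, ?_⟩
    · refine g2.trans (mul_le_mul_of_nonneg_right (pow_le_pow_right₀ hX (by omega)) (by positivity))
    · intro w hw
      rw [mem_image] at hw
      obtain ⟨v, hv, rfl⟩ := hw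
      rw [mem_Icc] at hv
      rw [sub_zero]
      push_cast
      rw [abs_mul, Nat.abs_cast, Nat.abs_cast, pow_add, mul_comm]
      apply mul_le_mul _ hM (Nat.cast_nonneg _) (by positivity)
      refine le_trans ?_ g4
      exact_mod_cast hv.2
    · rw [hcard]
      exact (pow_le_pow_right₀ hX hB).trans g3

end Pool.Agent.V5helper23.KQ
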