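import Pool.Agent.V5helper23.KQ.Asm

set_option autoImplicit false

/-! All arithmetic progressions with almost all differences: sums with the elements of an arbitrary dense set of primes. -/

namespace Pool.Agent.V5helper23.KQ
open Finset
open Pool.Agent.H373R2.T7 (pz mem_pz Vz Vz_pos Vz_le_one ev_L' ev_log' lamI lamzI lamz energy)
open Pool.Agent.Y877.SX (mid Vm mem_mid Vm_pos Vz_split primorial_le_log)
open Pool.Agent.N625.PT (VP VP_pos Vm_le_VP pp_one dvd_dist)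
open Pool.Agent.V5helper23.KP (Long Short)

set_option maxHeartbeats 4000000 in
open Classical in
theorem line_core (A U : ℕ) (ε : ℝ) (hε : 0 < ε) (hε1 : ε ≤ 1) : ∃ K₀ D B : ℕ, ∀ K₁ C p : ℕ, ∃ B' X₀ : ℕ, ∀ X : ℕ, X₀ ≤ X →
    ∀ y : ℕ, K₀ * Real.log (Real.log X) ≤ y → y ≤ K₁ * Real.log (Real.log X) →
    ∀ (n l : ℕ) (r : ℕ → ℤ), (LongLine B B' C X n l r ∨ ShortLine p B C X n l r) →
    ∀ E : Finset ℕ, E ⊆ Icc 1 n → (∀ m ∈ E, r m ≠ 0 ∧ ∃ a : ℤ,
      (∀ w ∈ Icc 1 l, (X : ℤ) < primorial y * (a + r m * (w : ℕ)) ∧ (primorial y : ℤ) * (a + r m * (w : ℕ)) ≤ 2 * X) ∧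
      ∃ S : Finset ℕ, S ⊆ Icc 1 X ∧ (∀ s ∈ S, s.Prime) ∧ (X : ℝ) ≤ S.card * Real.log X ^ A ∧
        (∀ q : ℕ, q.Prime → y < q → (q : ℝ) ≤ Real.log X ^ D → (q : ℤ) ∣ r m → ∀ s ∈ S, ¬ (q : ℤ) ∣ primorial y * a - (s : ℕ)) ∧
        ε * l < (((Icc 1 l).filter (fun w : ℕ => ((S.filter (fun s => ((primorial y : ℤ) * (a + r m * (w : ℕ)) - (s : ℕ)).toNat.Prime)).card : ℝ) <
          (1 - ε) * (S.card / (Vz y * Real.log X)))).card : ℝ)) →
    (E.card : ℝ) ≤ n / Real.log X ^ U := by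
  obtain ⟨δ, hδ⟩ : ∃ δ, δ = ε / 8 := ⟨_, rfl⟩
  have hδ0 : 0 < δ := by rw [hδ]; positivity
  have hδ8 : δ ≤ 1 / 8 := by rw [hδ]; linarith
  obtain ⟨K0, Q, hK01, hQ1, hrough⟩ := rough_ap (A + 1) δ (ε / 2) hδ0 (by linarith) (by positivity) (by linarith)
  obtain ⟨Ba, hlam⟩ := lam_univ U (A + 2)
  obtain ⟨D, hD⟩ : ∃ D, D = 2 * A + 10 := ⟨_, rfl⟩
  obtain ⟨B, hB⟩ : ∃ B, B = Ba + D * Q + (2 * A + 8) + 8 := ⟨_, rfl⟩
  refine ⟨K0, D, B, fun K₁ C p => ?_⟩
  obtain ⟨Bz, hlam⟩ := hlam (C + 2 * K₁) p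
  obtain ⟨Bz', hBz'⟩ : ∃ Bz', Bz' = Bz + D := ⟨_, rfl⟩
  obtain ⟨B', x1, hlam⟩ := hlam (Bz' + 1)
  obtain ⟨x2, hrough⟩ := hrough D
  obtain ⟨x3, hsv⟩ := sieve_univ (A + 2) (Bz' + 1)
  obtain ⟨x4, h4⟩ := ev_L' (max (max 100 (Real.exp 1)) (max (max (4 / (ε * δ) + 1) (Real.log 2 / δ)) (2 + 2 * K₁)))
  obtain ⟨x5, h5⟩ := ev_log' (A + 2) (8 / δ)
  obtain ⟨x6, h6⟩ := ev_log' (A + D + 1) (2 / δ)
  refine ⟨B', x1 + x2 + x3 + x4 + x5 + x6 + 1, fun X hX y hy1 hy2 n l r hfam E hEI hE => ?_⟩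
  have b4 := h4 X (by omega)
  have b5 := h5 X (by omega)
  have b6 := h6 X (by omega)
  have hlamX := hlam X (by omega)
  have hroughX := hrough X (by omega)
  have hsvX := hsv X (by omega)
  clear hlam hrough hsv h4 h5 h6
  obtain ⟨L, hL⟩ : ∃ L, L = Real.log (X : ℝ) := ⟨_, rfl⟩
  have hX1 : (1 : ℝ) ≤ X := by exact_mod_cast (by omega : 1 ≤ X)
  have hX0 : (0 : ℝ) < X := by linarith
  have hfam0 := hfam
  rw [← hL] at b4 b5 b6 hlamX hroughX hsvX hy1 hy2 hE ⊢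
  have hL100 : 100 ≤ L := (le_max_left _ _).trans ((le_max_left _ _).trans b4)
  have hLe : Real.exp 1 ≤ L := (le_max_right _ _).trans ((le_max_left _ _).trans b4)
  have hLε : 4 / (ε * δ) + 1 ≤ L := (le_max_left _ _).trans ((le_max_left _ _).trans ((le_max_right _ _).trans b4))
  have hL2 : Real.log 2 / δ ≤ L := (le_max_right _ _).trans ((le_max_left _ _).trans ((le_max_right _ _).trans b4))
  have hLK : 2 + 2 * (K₁ : ℝ) ≤ L := (le_max_right _ _).trans ((le_max_right _ _).trans b4)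
  have hL1 : 1 ≤ L := by linarith
  have hL0 : 0 < L := by linarith
  have hsX : √(X : ℝ) ≤ X := by
    rw [Real.sqrt_le_left (by positivity)]
    exact le_self_pow₀ hX1 (by norm_num)
  have hs0 : 0 ≤ √(X : ℝ) := Real.sqrt_nonneg _
  -- the levels
  obtain ⟨z₁, hz₁⟩ : ∃ z₁, z₁ = ⌈L ^ (2 * A + 9)⌉₊ := ⟨_, rfl⟩
  have hz1a : L ^ (2 * A + 9) ≤ z₁ := by rw [hz₁]; exact Nat.le_ceil _
  have hceil : ∀ k : ℕ, ((⌈L ^ k⌉₊ : ℕ) : ℝ) ≤ L ^ (k + 1) := by
    intro k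
    have h1 : ((⌈L ^ k⌉₊ : ℕ) : ℝ) < L ^ k + 1 := Nat.ceil_lt_add_one (by positivity)
    have h2 : 1 ≤ L ^ k := one_le_pow₀ hL1
    rw [pow_succ]
    nlinarith
  have hz1b : (z₁ : ℝ) ≤ L ^ D := by
    rw [hz₁, hD]
    exact hceil _
  obtain ⟨z₂, hz₂⟩ : ∃ z₂, z₂ = ⌈L ^ Bz'⌉₊ := ⟨_, rfl⟩
  have hz2a : L ^ Bz' ≤ z₂ := by rw [hz₂]; exact Nat.le_ceil _
  have hz2b : (z₂ : ℝ) ≤ L ^ (Bz' + 1) := by
    rw [hz₂]
    exact hceil _
  have hz12 : z₁ ≤ z₂ := by
    have : (z₁ : ℝ) ≤ z₂ := (hz1b.trans (pow_le_pow_right₀ hL1 (by omega))).trans hz2a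
    exact_mod_cast this
  have hLz : L ≤ z₁ := by
    refine le_trans ?_ hz1a
    exact le_self_pow₀ hL1 (by omega)
  have hz11 : 1 ≤ z₁ := by
    have : (1 : ℝ) ≤ z₁ := hL1.trans hLz
    exact_mod_cast this
  obtain ⟨lk, hlk⟩ : ∃ lk, lk = Real.log L := ⟨_, rfl⟩
  rw [← hlk] at hy1 hy2
  have hyz : y ≤ z₁ := by
    have h1 : (y : ℝ) ≤ L ^ 2 := by
      have h2 : lk ≤ L := by
        rw [hlk]
        exact (Real.log_le_sub_one_of_pos hL0).trans (by linarith)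
      have h3 : (K₁ : ℝ) * lk ≤ K₁ * L := mul_le_mul_of_nonneg_left h2 (Nat.cast_nonneg _)
      have h4 : (K₁ : ℝ) ≤ L := by
        have : (0 : ℝ) ≤ K₁ := Nat.cast_nonneg _
        linarith
      have h5 : (K₁ : ℝ) * L ≤ L * L := mul_le_mul_of_nonneg_right h4 hL0.le
      nlinarith
    have h2 : L ^ 2 ≤ z₁ := (pow_le_pow_right₀ hL1 (by omega)).trans hz1a
    exact_mod_cast h1.trans h2
  -- the multiplier
  obtain ⟨M, hM⟩ : ∃ M, M = primorial y := ⟨_, rfl⟩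
  have hM1 : 1 ≤ M := by rw [hM]; exact primorial_pos y
  have hMk : (M : ℝ) ≤ L ^ (2 * K₁) := by
    rw [hM]
    apply primorial_le_log K₁ y L hLe
    rw [← hlk]
    exact hy2
  have hMi : (0 : ℤ) < M := by exact_mod_cast hM1
  rw [← hM] at hE
  -- the family
  have hfam2 := line_fam p Ba B B' C K₁ X n l M r (by rw [← hL]; exact hL1) (by omega) hM1 (by rw [← hL]; exact hMk) hfam
  obtain ⟨SM, hSM⟩ : ∃ SM, SM = (Icc 1 l).image (fun w : ℕ => (M : ℤ) * w) := ⟨_, rfl⟩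
  rw [← hSM] at hfam2
  have hSMc : SM.card = l := by
    rw [hSM, card_image_of_injective _ (fun a b hab => by
      have := mul_left_cancel₀ hMi.ne' hab
      exact_mod_cast this), Nat.card_Icc, Nat.add_sub_cancel]
  have hl : L ^ B ≤ l := by
    rcases hfam0 with ⟨_, g, _, _⟩ | ⟨_, _, g, _⟩
    · rw [hL]; exact g
    · rw [hL]; exact g
  have hl0 : (0 : ℝ) < l := lt_of_lt_of_le (by positivity) hl
  refine hlamX z₂ ((pow_le_pow_right₀ hL1 (by omega)).trans hz2a) hz2b n r SM hfam2 E hEI ?_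
  intro m hm
  obtain ⟨hr0, a, hrange, S, hS, hSp, hSA, hadm, hbad⟩ := hE m hm
  -- the set
  obtain ⟨S', hS'⟩ : ∃ S', S' = S.filter (fun s => z₁ < s) := ⟨_, rfl⟩
  have hsub : S' ⊆ S := by rw [hS']; exact filter_subset _ _
  have hsmall : (S.card : ℝ) ≤ S'.card + (z₁ + 1) := by
    have h1 : (S.filter (fun j => ¬ z₁ < j)).card ≤ z₁ + 1 := by
      have h2 : (S.filter (fun j => ¬ z₁ < j)).card ≤ (range (z₁ + 1)).card := by
        apply card_le_card
        intro s hs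
        rw [mem_filter] at hs
        rw [mem_range]
        omega
      rwa [card_range] at h2
    have h3 := card_filter_add_card_filter_not (s := S) (fun j => z₁ < j)
    rw [← hS'] at h3
    have h4 : S.card ≤ S'.card + (z₁ + 1) := by omega
    exact_mod_cast h4
  have hLA0 : 0 < L ^ A := by positivity
  have hzS : (z₁ : ℝ) + 1 ≤ δ * S.card := by
    have h1 : (z₁ : ℝ) + 1 ≤ 2 * L ^ D := by
      have : 1 ≤ L ^ D := one_le_pow₀ hL1
      linarith
    have h2 : 2 / δ * L ^ (A + D + 1) ≤ X := b6.trans hsX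
    have h3 : (2 / δ * L ^ (D + 1)) * L ^ A ≤ S.card * L ^ A := by
      refine le_trans (le_of_eq ?_) (h2.trans hSA)
      rw [show A + D + 1 = (D + 1) + A by ring, pow_add L (D + 1) A]
      ring
    have h4 := le_of_mul_le_mul_right h3 hLA0
    have h5 : 2 * L ^ (D + 1) ≤ δ * S.card := by
      have h6 := mul_le_mul_of_nonneg_left h4 hδ0.le
      refine le_trans (le_of_eq ?_) h6
      field_simp
    refine h1.trans (le_trans ?_ h5)
    apply mul_le_mul_of_nonneg_left _ (by norm_num)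
    exact pow_le_pow_right₀ hL1 (by omega)
  have hSS : (1 - δ) * S.card ≤ S'.card := by linarith
  have hSc0 : (0 : ℝ) ≤ S.card := Nat.cast_nonneg _
  have hS2 : (S.card : ℝ) ≤ 2 * S'.card := by
    have : 1 / 2 * (S.card : ℝ) ≤ (1 - δ) * S.card := mul_le_mul_of_nonneg_right (by linarith) hSc0
    linarith
  obtain ⟨μ, hμ⟩ : ∃ μ : ℝ, μ = S'.card := ⟨_, rfl⟩
  have hμA : (X : ℝ) ≤ μ * L ^ (A + 1) := by
    calc (X : ℝ) ≤ S.card * L ^ A := hSA
      _ ≤ (2 * μ) * L ^ A := by rw [hμ]; exact mul_le_mul_of_nonneg_right hS2 (by positivity)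
      _ = μ * (L ^ A * 2) := by ring
      _ ≤ μ * (L ^ A * L) := by
          apply mul_le_mul_of_nonneg_left _ (by rw [hμ]; exact Nat.cast_nonneg _)
          exact mul_le_mul_of_nonneg_left (by linarith) (by positivity)
      _ = _ := by rw [pow_succ]
  have hμ0 : 0 < μ := by
    by_contra hcon
    push Not at hcon
    have : μ * L ^ (A + 1) ≤ 0 := mul_nonpos_of_nonpos_of_nonneg hcon (by positivity)
    linarith
  -- the primes
  obtain ⟨P, hPd⟩ : ∃ P, P = (mid y z₁).filter (fun q : ℕ => ¬ (q : ℤ) ∣ r m) := ⟨_, rfl⟩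
  have hP : P ⊆ mid y z₁ := by rw [hPd]; exact filter_subset _ _
  have hPα : ∀ q ∈ P, ¬ (q : ℤ) ∣ (M : ℤ) * r m := by
    intro q hq hd
    rw [hPd, mem_filter, mem_mid] at hq
    obtain ⟨⟨q1, q2, q3⟩, q4⟩ := hq
    rcases (Nat.prime_iff_prime_int.1 q3).dvd_or_dvd hd with h2 | h2
    · have h3 : q ∣ M := by exact_mod_cast h2
      rw [hM] at h3
      have := (q3.dvd_primorial_iff).1 h3
      omega
    · exact q4 h2
  have hPc : ∀ w : ℕ, ∀ q : ℕ, q.Prime → q ≤ z₁ → q ∉ P → ∀ s ∈ S', ¬ (q : ℤ) ∣ (M : ℤ) * (a + r m * (w : ℕ)) - (s : ℕ) := by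
    intro w q hq hqz hqP s hs hd
    rw [hS', mem_filter] at hs
    by_cases hqy : y < q
    · have h1 : (q : ℤ) ∣ r m := by
        by_contra hcon
        apply hqP
        rw [hPd, mem_filter]
        exact ⟨mem_mid.2 ⟨hqy, hqz, hq⟩, hcon⟩
      have h2 : (q : ℝ) ≤ L ^ D := le_trans (by exact_mod_cast hqz) hz1b
      apply hadm q hq hqy h2 h1 s hs.1
      have h3 : (M : ℤ) * a - (s : ℕ) = ((M : ℤ) * (a + r m * (w : ℕ)) - (s : ℕ)) - (r m) * (M * (w : ℕ)) := by ring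
      rw [h3]
      exact dvd_sub hd (h1.mul_right _)
    · have h1 : (q : ℤ) ∣ (M : ℤ) := by
        have : q ∣ M := by rw [hM]; exact hq.dvd_primorial_iff.2 (by omega)
        exact_mod_cast this
      have h2 : (q : ℤ) ∣ ((s : ℕ) : ℤ) := (dvd_sub_right (h1.mul_right _)).1 hd
      have h3 : q ∣ s := by exact_mod_cast h2
      have h4 := (Nat.prime_dvd_prime_iff_eq hq (hSp s hs.1)).1 h3
      omega
  -- the members
  obtain ⟨Yw, hYw⟩ : ∃ Yw : ℕ → ℤ, Yw = fun w => (M : ℤ) * (a + r m * (w : ℕ)) := ⟨_, rfl⟩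
  have hYr : ∀ w ∈ Icc 1 l, (X : ℤ) < Yw w ∧ Yw w ≤ 2 * X := by
    intro w hw
    rw [hYw]
    exact hrange w hw
  obtain ⟨α, hα⟩ : ∃ α : ℕ → ℕ, α = fun w => (Yw w - X - 1).toNat := ⟨_, rfl⟩
  have hαv : ∀ w ∈ Icc 1 l, ((α w : ℕ) : ℤ) = Yw w - X - 1 := by
    intro w hw
    have := hYr w hw
    rw [hα]
    simp only
    omega
  obtain ⟨g, hg⟩ : ∃ g : ℕ → ℝ, g = fun k => if X + 1 - k ∈ S' then 1 else 0 := ⟨_, rfl⟩
  have hg1 : ∀ k ∈ Icc 1 X, |g k| ≤ 1 := by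
    intro k _
    rw [hg]
    simp only
    split_ifs <;> simp
  have hrefl : ∀ (f : ℤ → ℝ), ∀ w ∈ Icc 1 l, ∑ n ∈ Icc 1 X, (if n ∈ S' then (1 : ℝ) else 0) * f (Yw w - (n : ℕ)) =
      ∑ k ∈ Icc 1 X, g k * f ((α w : ℤ) + k) := by
    intro f w hw
    rw [sum_refl X (fun n => (if n ∈ S' then (1 : ℝ) else 0) * f (Yw w - (n : ℕ)))]
    apply sum_congr rfl
    intro k hk
    rw [mem_Icc] at hk
    rw [hg, hαv w hw]
    simp only
    congr 2
    have : ((X + 1 - k : ℕ) : ℤ) = X + 1 - k := by omega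
    rw [this]
    ring
  -- the bad terms
  obtain ⟨bad, hbd⟩ : ∃ bad, bad = (Icc 1 l).filter (fun w : ℕ => ((S.filter (fun s => ((M : ℤ) * (a + r m * (w : ℕ)) - (s : ℕ)).toNat.Prime)).card : ℝ) <
          (1 - ε) * (S.card / (Vz y * L))) := ⟨_, rfl⟩
  obtain ⟨bad1, hbd1⟩ : ∃ bad1, bad1 = (Icc 1 l).filter (fun v : ℕ => ((S'.filter (fun s => ∀ q ∈ P, ¬ (q : ℤ) ∣ (M : ℤ) * r m * v + ((M : ℤ) * a - (s : ℕ)))).card : ℝ) <
      (1 - δ) * (S'.card * VP P)) := ⟨_, rfl⟩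
  obtain ⟨Dw, hDw⟩ : ∃ Dw : ℕ → ℝ, Dw = fun w => |∑ n ∈ Icc 1 X, (if n ∈ S' then (1 : ℝ) else 0) * dl z₁ (Yw w - (n : ℕ))| := ⟨_, rfl⟩
  obtain ⟨bad2, hbd2⟩ : ∃ bad2, bad2 = (Icc 1 l).filter (fun w : ℕ => δ * μ < Dw w) := ⟨_, rfl⟩
  have hbad' : ε * l < (bad.card : ℝ) := by rw [hbd]; exact hbad
  have hz1Q : z₁ ^ Q ≤ l := by
    have : ((z₁ ^ Q : ℕ) : ℝ) ≤ l := by
      push_cast
      calc (z₁ : ℝ) ^ Q ≤ (L ^ D) ^ Q := pow_le_pow_left₀ (Nat.cast_nonneg _) hz1b Q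
        _ = L ^ (D * Q) := by rw [← pow_mul]
        _ ≤ L ^ B := pow_le_pow_right₀ hL1 (by omega)
        _ ≤ l := hl
    exact_mod_cast this
  have hc1 : (bad1.card : ℝ) ≤ ε / 2 * l := by
    rw [hbd1]
    exact hroughX y z₁ (by rw [← hlk]; exact hy1) hyz hz1b P hP l hz1Q ((pow_le_pow_right₀ hL1 (by omega)).trans hl) S' (hsub.trans hS)
      (by rw [← hμ]; exact hμA) ((M : ℤ) * r m) (fun s => (M : ℤ) * a - (s : ℕ)) hPα (by
      intro s _ t _ q v h1 h2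
      apply Dvd.dvd.mul_right
      apply dvd_dist
      have h3 := dvd_sub h2 h1
      have h4 : (M : ℤ) * r m * (v : ℕ) + ((M : ℤ) * a - (t : ℕ)) - ((M : ℤ) * r m * (v : ℕ) + ((M : ℤ) * a - (s : ℕ))) =
          (s : ℤ) - t := by ring
      rwa [h4] at h3)
  have hcov : bad ⊆ bad1 ∪ bad2 := by
    intro w hw
    by_contra hcon
    rw [mem_union, not_or] at hcon
    rw [hbd, mem_filter] at hw
    obtain ⟨hwl, hfew⟩ := hw
    have hn1 : (1 - δ) * (S'.card * VP P) ≤ ((S'.filter (fun s => ∀ q ∈ P, ¬ (q : ℤ) ∣ (M : ℤ) * r m * w + ((M : ℤ) * a - (s : ℕ)))).card : ℝ) := by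
      by_contra hc
      push Not at hc
      apply hcon.1
      rw [hbd1, mem_filter]
      exact ⟨hwl, hc⟩
    have hn2 : Dw w ≤ δ * μ := by
      by_contra hc
      push Not at hc
      apply hcon.2
      rw [hbd2, mem_filter]
      exact ⟨hwl, hc⟩
    obtain ⟨hw1, hw2⟩ := hYr w hwl
    have hlog2X : Real.log ((2 * X : ℕ) : ℝ) = Real.log 2 + L := by
      push_cast
      rw [Real.log_mul (by norm_num) hX0.ne', hL]
    have hlog2 : Real.log 2 ≤ δ * L := by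
      rw [div_le_iff₀ hδ0] at hL2
      linarith
    have hasm := assemble' X y z₁ δ hδ0 hδ8 hyz P hP (Yw w) S S' hS hS' hSS (by
      rw [hYw]
      exact hPc w) (by
      intro s hs
      have h1 := (mem_Icc.1 (hS hs)).2
      omega) (2 * X) (by omega) (by
      intro s hs
      push_cast
      have : (0 : ℤ) ≤ (s : ℕ) := Int.natCast_nonneg _
      linarith) L hL0 (by
      rw [hlog2X]
      linarith) (by
      rw [← hμ, hlog2X]
      have g1 : √(((2 * X : ℕ) : ℝ)) ≤ 2 * √(X : ℝ) := by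
        rw [Real.sqrt_le_left (by positivity), mul_pow, Real.sq_sqrt hX0.le]
        push_cast
        linarith
      have g2 : Real.log 2 + L ≤ 2 * L := by
        have := Real.log_two_lt_d9
        linarith
      have g3 : (2 * √(((2 * X : ℕ) : ℝ)) * (Real.log 2 + L)) * L ^ (A + 1) ≤ (δ * μ) * L ^ (A + 1) := by
        calc (2 * √(((2 * X : ℕ) : ℝ)) * (Real.log 2 + L)) * L ^ (A + 1) ≤ (2 * (2 * √(X : ℝ)) * (2 * L)) * L ^ (A + 1) := by
              gcongr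
          _ = √(X : ℝ) * (8 * L ^ (A + 2)) := by ring
          _ ≤ √(X : ℝ) * (δ * √(X : ℝ)) := by
              apply mul_le_mul_of_nonneg_left _ hs0
              have h7 := mul_le_mul_of_nonneg_left b5 hδ0.le
              refine le_trans (le_of_eq ?_) h7
              field_simp
          _ = δ * X := by
              have := Real.mul_self_sqrt hX0.le
              linear_combination δ * this
          _ ≤ δ * (μ * L ^ (A + 1)) := mul_le_mul_of_nonneg_left hμA hδ0.le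
          _ = _ := by ring
      exact le_of_mul_le_mul_right g3 (by positivity)) (by
      refine hn1.trans (le_of_eq ?_)
      congr 2
      ext s
      rw [mem_filter, mem_filter, hYw]
      have : (M : ℤ) * r m * (w : ℕ) + ((M : ℤ) * a - (s : ℕ)) = (M : ℤ) * (a + r m * (w : ℕ)) - (s : ℕ) := by ring
      rw [this]) (by
      rw [← hμ]
      rw [hDw] at hn2
      exact hn2)
    have he8 : 1 - 8 * δ = 1 - ε := by rw [hδ]; ring
    rw [he8, hYw] at hasm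
    linarith
  have hc2 : ε / 2 * l < (bad2.card : ℝ) := by
    have h1 : (bad.card : ℝ) ≤ bad1.card + bad2.card := by
      exact_mod_cast (card_le_card hcov).trans (card_union_le _ _)
    linarith
  -- the sum
  have hlow : 2 * (X * l / L ^ (A + 2)) < ∑ w ∈ Icc 1 l, Dw w := by
    have h1 : ε / 2 * l * (δ * μ) < ∑ w ∈ Icc 1 l, Dw w := by
      calc ε / 2 * l * (δ * μ) < bad2.card * (δ * μ) := mul_lt_mul_of_pos_right hc2 (by positivity)
        _ = ∑ _w ∈ bad2, δ * μ := by rw [sum_const, nsmul_eq_mul]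
        _ ≤ ∑ w ∈ bad2, Dw w := by
            apply sum_le_sum
            intro w hw
            rw [hbd2, mem_filter] at hw
            exact hw.2.le
        _ ≤ _ := by
            apply sum_le_sum_of_subset_of_nonneg
            · rw [hbd2]; exact filter_subset _ _
            · intro w _ _
              rw [hDw]
              exact abs_nonneg _
    refine lt_of_le_of_lt ?_ h1
    rw [mul_div_assoc', div_le_iff₀ (by positivity)]
    have h2 : 4 ≤ ε * δ * L := by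
      have h3 : 4 / (ε * δ) ≤ L := by linarith
      rw [div_le_iff₀ (by positivity)] at h3
      linarith
    calc 2 * ((X : ℝ) * l) = X * (2 * l) := by ring
      _ ≤ (μ * L ^ (A + 1)) * (2 * l) := mul_le_mul_of_nonneg_right hμA (by positivity)
      _ = 4 * (μ * L ^ (A + 1) * l / 2) := by ring
      _ ≤ (ε * δ * L) * (μ * L ^ (A + 1) * l / 2) := mul_le_mul_of_nonneg_right h2 (by positivity)
      _ = ε / 2 * l * (δ * μ) * L ^ (A + 2) := by ring
  have hup2 : ∑ w ∈ Icc 1 l, |∑ k ∈ Icc 1 X, g k * dz z₂ z₁ ((α w : ℤ) + k)| ≤ X * l / L ^ (A + 2) := by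
    have h1 := hsvX z₁ z₂ ((pow_le_pow_right₀ hL1 (by omega)).trans hz1a) hz12 hz2b (Icc 1 l) α (by
      intro i hi j hj hij
      have h2 := hαv i hi
      have h3 := hαv j hj
      rw [hij] at h2
      have h4 : Yw i = Yw j := by omega
      rw [hYw] at h4
      simp only at h4
      have h5 := mul_left_cancel₀ hMi.ne' h4
      have h6 : r m * (i : ℤ) = r m * (j : ℤ) := by linarith
      have h7 := mul_left_cancel₀ hr0 h6
      exact_mod_cast h7) (by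
      intro i hi
      have h2 := hαv i hi
      have h3 := hYr i hi
      omega) (by
      rw [Nat.card_Icc, Nat.add_sub_cancel]
      exact (pow_le_pow_right₀ hL1 (by omega)).trans hl) g hg1
    rwa [Nat.card_Icc, Nat.add_sub_cancel] at h1
  refine ⟨(M : ℤ) * a - X - 1, g, ?_, hg1, ?_⟩
  · intro w hw
    rw [hSM, mem_image] at hw
    obtain ⟨v, hv, rfl⟩ := hw
    obtain ⟨h1, h2⟩ := hYr v hv
    have h3 : (M : ℤ) * a - X - 1 + r m * ((M : ℤ) * (v : ℕ)) = Yw v - X - 1 := by rw [hYw]; ring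
    rw [h3]
    constructor <;> omega
  · rw [hSMc]
    have h1 : ∑ w ∈ SM, |∑ k ∈ Icc 1 X, g k * dl z₂ ((M : ℤ) * a - X - 1 + r m * w + k)| =
        ∑ w ∈ Icc 1 l, |∑ k ∈ Icc 1 X, g k * dl z₂ ((α w : ℤ) + k)| := by
      rw [hSM, sum_image (fun i _ j _ hij => by
        have := mul_left_cancel₀ hMi.ne' hij
        exact_mod_cast this)]
      apply sum_congr rfl
      intro v hv
      congr 1
      apply sum_congr rfl
      intro k _
      rw [hαv v hv]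
      have h3 : (M : ℤ) * a - X - 1 + r m * ((M : ℤ) * (v : ℕ)) = Yw v - X - 1 := by rw [hYw]; ring
      rw [h3]
    rw [h1]
    have h2 : ∀ w ∈ Icc 1 l, Dw w ≤ |∑ k ∈ Icc 1 X, g k * dl z₂ ((α w : ℤ) + k)| + |∑ k ∈ Icc 1 X, g k * dz z₂ z₁ ((α w : ℤ) + k)| := by
      intro w hw
      rw [hDw]
      simp only
      rw [hrefl (dl z₁) w hw]
      have h3 : ∑ k ∈ Icc 1 X, g k * dl z₁ ((α w : ℤ) + k) = ∑ k ∈ Icc 1 X, g k * dl z₂ ((α w : ℤ) + k) +
          ∑ k ∈ Icc 1 X, g k * dz z₂ z₁ ((α w : ℤ) + k) := by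
        rw [← sum_add_distrib]
        apply sum_congr rfl
        intro k _
        unfold dl dz
        ring
      rw [h3]
      exact abs_add_le _ _
    have h4 := sum_le_sum h2
    rw [sum_add_distrib] at h4
    linarith

end Pool.Agent.V5helper23.KQ
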