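import Pool.Agent.V5helper23.KP.Univ
import Pool.Agent.Y885.WI1
import Pool.Agent.K7.H49.LT.Max

set_option autoImplicit false

/-! Every bounded function correlates with few of the translates of the primes (minus their model) by the members of a pattern. -/

namespace Pool.Agent.V5helper23.KQ
open Finset
open Pool.Agent.H373R2.T7
open Pool.Agent.Y885 (Thin TLaw Spec)
open Pool.Agent.V5helper23.KP (Long Short family_QS dif_law lvl_facts)

/-- duality -/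
lemma dualR {ι : Type} (N : ℕ) (S : Finset ι) (F : ι → ℕ → ℝ) (g : ℕ → ℝ) :
    (∑ w ∈ S, |∑ k ∈ Icc 1 N, g k * F w k|) ^ 2 ≤
      (∑ k ∈ Icc 1 N, g k ^ 2) * ∑ z ∈ S ×ˢ S, |∑ k ∈ Icc 1 N, F z.1 k * F z.2 k| := by
  classical
  obtain ⟨T, hT⟩ : ∃ T : ι → ℝ, T = fun w => ∑ k ∈ Icc 1 N, g k * F w k := ⟨_, rfl⟩
  obtain ⟨e, he⟩ : ∃ e : ι → ℝ, e = fun w => if 0 ≤ T w then 1 else -1 := ⟨_, rfl⟩
  have he1 : ∀ w, |e w| ≤ 1 := by
    intro w
    rw [he]
    simp only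
    split_ifs <;> simp
  have he2 : ∀ w, e w * T w = |T w| := by
    intro w
    rw [he]
    simp only
    split_ifs with h
    · rw [one_mul, abs_of_nonneg h]
    · rw [abs_of_neg (not_le.1 h)]; ring
  have h1 : ∑ w ∈ S, |∑ k ∈ Icc 1 N, g k * F w k| = ∑ k ∈ Icc 1 N, g k * ∑ w ∈ S, e w * F w k := by
    have : ∀ w ∈ S, |∑ k ∈ Icc 1 N, g k * F w k| = ∑ k ∈ Icc 1 N, g k * (e w * F w k) := by
      intro w _
      have := he2 w
      rw [hT] at this
      simp only at this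
      rw [← this, mul_sum]
      apply sum_congr rfl
      intro k _
      ring
    rw [sum_congr rfl this, sum_comm]
    apply sum_congr rfl
    intro k _
    rw [mul_sum]
  rw [h1]
  refine (sum_mul_sq_le_sq_mul_sq _ _ _).trans ?_
  apply mul_le_mul_of_nonneg_left _ (sum_nonneg fun _ _ => sq_nonneg _)
  have h2 : ∑ k ∈ Icc 1 N, (∑ w ∈ S, e w * F w k) ^ 2 = ∑ z ∈ S ×ˢ S, (e z.1 * e z.2) * ∑ k ∈ Icc 1 N, F z.1 k * F z.2 k := by
    have : ∀ k, (∑ w ∈ S, e w * F w k) ^ 2 = ∑ z ∈ S ×ˢ S, (e z.1 * e z.2) * (F z.1 k * F z.2 k) := by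
      intro k
      rw [sq, sum_mul_sum, sum_product]
      apply sum_congr rfl
      intro w _
      apply sum_congr rfl
      intro w' _
      ring
    rw [sum_congr rfl (fun k _ => this k), sum_comm]
    apply sum_congr rfl
    intro z _
    rw [mul_sum]
  rw [h2]
  apply sum_le_sum
  intro z _
  refine (le_abs_self _).trans ?_
  rw [abs_mul, abs_mul]
  calc |e z.1| * |e z.2| * |∑ k ∈ Icc 1 N, F z.1 k * F z.2 k| ≤ 1 * 1 * |∑ k ∈ Icc 1 N, F z.1 k * F z.2 k| := by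
        gcongr <;> exact he1 _
    _ = _ := by ring

/-- the von Mangoldt function minus its model -/
noncomputable def dl (z : ℕ) (k : ℤ) : ℝ := lamI k - lamzI z k

lemma dl_le (z K : ℕ) (hV : (Vz z)⁻¹ ≤ K) (k : ℤ) (hk : k ≤ (2 : ℤ) ^ K) : |dl z k| ≤ K := by
  unfold dl
  have h1 := lamI_nonneg k
  have h2 : 0 ≤ lamzI z k := by
    unfold lamzI
    split_ifs
    · exact lamz_nonneg _ _
    · exact le_rfl
  have h3 := lamzI_le z k
  have h4 : lamI k ≤ K := by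
    have h5 := lamI_le k ((2 : ℝ) ^ K) (one_le_pow₀ (by norm_num)) (by exact_mod_cast hk)
    rw [Real.log_pow] at h5
    have h6 := Real.log_two_lt_d9
    have h7 : (0 : ℝ) ≤ K := Nat.cast_nonneg _
    nlinarith
  rw [abs_le]
  constructor <;> linarith

lemma sum_shiftN (f : ℕ → ℝ) (v X : ℕ) : ∑ k ∈ Icc 1 X, f (v + k) = ∑ j ∈ Ioc v (v + X), f j := by
  apply sum_bij (fun k _ => v + k)
  · intro k hk
    rw [mem_Icc] at hk
    rw [mem_Ioc]
    omega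
  · intro k _ k' _ h
    omega
  · intro j hj
    rw [mem_Ioc] at hj
    exact ⟨j - v, mem_Icc.2 (by omega), by omega⟩
  · intro k _
    rfl

set_option maxHeartbeats 1000000 in
theorem lam_univ (U U₁ : ℕ) : ∃ B : ℕ, ∀ C p : ℕ, ∃ Bz : ℕ, ∀ Ez : ℕ, ∃ B' X₀ : ℕ, ∀ X : ℕ, X₀ ≤ X →
    ∀ z : ℕ, Real.log X ^ Bz ≤ z → (z : ℝ) ≤ Real.log X ^ Ez →
    ∀ (n : ℕ) (r : ℕ → ℤ) (S : Finset ℤ), (Long B B' C X n r S ∨ Short p B C X n r S) →
      ∀ E : Finset ℕ, E ⊆ Icc 1 n → (∀ m ∈ E, ∃ (a : ℤ) (g : ℕ → ℝ), (∀ w ∈ S, 0 ≤ a + r m * w ∧ a + r m * w ≤ X) ∧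
        (∀ k ∈ Icc 1 X, |g k| ≤ 1) ∧
        (X : ℝ) * S.card / Real.log X ^ U₁ < ∑ w ∈ S, |∑ k ∈ Icc 1 X, g k * dl z (a + r m * w + k)|) →
      (E.card : ℝ) ≤ n / Real.log X ^ U := by
  classical
  obtain ⟨W, hW⟩ : ∃ W, W = 2 * U₁ := ⟨_, rfl⟩
  obtain ⟨U2, hU2⟩ : ∃ U2, U2 = 2 * W + 6 := ⟨_, rfl⟩
  obtain ⟨V, hV⟩ : ∃ V, V = 2 * U2 + 6 := ⟨_, rfl⟩
  refine ⟨V + U + 2, fun C p => ?_⟩
  obtain ⟨c, X1, h1⟩ := family_QS p C (V + U)
  obtain ⟨Bt, h2⟩ := Pool.Agent.Y885.tl_dif 2 3 c le_rfl (by norm_num) U2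
  refine ⟨2 * Bt, fun Ez => ?_⟩
  obtain ⟨K₀, h2⟩ := h2 Ez
  obtain ⟨X3, h3⟩ := ev_L' ((K₀ + 100 : ℕ) : ℝ)
  obtain ⟨X4, h4⟩ := lvl_facts
  obtain ⟨X5, h5⟩ := Vz_inv_small Ez
  obtain ⟨X6, h6⟩ := Pool.Agent.V5helper23.KP.log_pow_le (W + 3)
  obtain ⟨X7, h7⟩ := ev_log' (W + 4) 2
  refine ⟨2 * (V + U) + C + 3, X1 + X3 + X4 + X5 + X6 + X7 + 3, fun X hX z hz1 hz2 n r S hfam E hEI hE => ?_⟩
  have b3 := h3 X (by omega)
  obtain ⟨a1, a2, a3, a4⟩ := h4 X (by omega)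
  have b5 := h5 X (by omega) z
  have b6 := h6 X (by omega)
  have b7 := h7 X (by omega)
  obtain ⟨L, hL⟩ : ∃ L, L = Real.log (X : ℝ) := ⟨_, rfl⟩
  obtain ⟨K, hK⟩ : ∃ K, K = Pool.Agent.V5helper23.KP.lvl X := ⟨_, rfl⟩
  rw [← hK] at a1 a2 a3 a4 b6
  rw [← hL] at b3 a3 a4 b5 b6 b7 hE hz1 hz2 ⊢
  have hX0 : (0 : ℝ) < X := by exact_mod_cast (by omega : 0 < X)
  have hX1 : (1 : ℝ) ≤ X := by exact_mod_cast (by omega : 1 ≤ X)
  have hk : ((K₀ + 100 : ℕ) : ℝ) ≤ K := b3.trans a3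
  have hk' : K₀ + 100 ≤ K := by exact_mod_cast hk
  have hL100 : (100 : ℝ) ≤ L := by
    refine le_trans ?_ b3
    exact_mod_cast (by omega : 100 ≤ K₀ + 100)
  have hL0 : 0 < L := by linarith
  have hK100 : (100 : ℝ) ≤ K := hL100.trans a3
  have hK0 : (0 : ℝ) < K := by linarith
  have hz0 : 1 ≤ z := by
    have : (1 : ℝ) ≤ z := (one_le_pow₀ (by linarith)).trans hz1
    exact_mod_cast this
  have hVz : (Vz z)⁻¹ ≤ K := (b5 hz0 hz2).trans a3
  rcases Nat.eq_zero_or_pos n with hn | hn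
  · subst hn
    have : E = ∅ := subset_empty.1 (hEI.trans (by simp))
    rw [this]
    simp
  have hSne : S.Nonempty := by
    rw [← card_pos]
    have h4 : Real.log X ^ (V + U + 2) ≤ S.card := by
      rcases hfam with ⟨_, _, _, _, _, _, g4, _⟩ | ⟨_, _, _, _, g4⟩ <;> exact g4
    rw [← hL] at h4
    have : (0 : ℝ) < S.card := lt_of_lt_of_le (by positivity) h4
    exact_mod_cast this
  have hs0 : (0 : ℝ) < S.card := by exact_mod_cast card_pos.2 hSne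
  by_contra hcon
  push Not at hcon
  have hEne : E.Nonempty := by
    rw [← card_pos]
    have : (0 : ℝ) < E.card := lt_of_le_of_lt (by positivity) hcon
    exact_mod_cast this
  have hE0 : (0 : ℝ) < E.card := by exact_mod_cast card_pos.2 hEne
  have hQS := h1 X (by omega) n r S hn hfam
  rw [← hK] at hQS
  have hlaw := dif_law U V c K (by omega) E (Icc 1 n) S r (fun _ => 0) hEI hEne hSne (by
    rw [Nat.card_Icc, Nat.add_sub_cancel]
    have e1 : (n : ℝ) ≤ L ^ U * E.card := by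
      rw [div_lt_iff₀ (by positivity)] at hcon
      linarith
    exact e1.trans (mul_le_mul_of_nonneg_right (pow_le_pow_left₀ hL0.le a3 U) (Nat.cast_nonneg _))) hQS
  obtain ⟨Y, hY⟩ : ∃ Y : ℕ × (ℤ × ℤ) → ℤ, Y = fun ω => ((fun _ => 0 : ℤ → ℤ) ω.2.1 - (fun _ => 0 : ℤ → ℤ) ω.2.2) + r ω.1 * (ω.2.1 - ω.2.2) := ⟨_, rfl⟩
  rw [← hY] at hlaw
  have hYv : ∀ ω, Y ω = r ω.1 * (ω.2.1 - ω.2.2) := by
    intro ω
    rw [hY]
    simp
  obtain ⟨qw, hqw⟩ : ∃ qw : ℝ, qw = 1 / ((E.card : ℝ) * (S.card : ℝ) ^ 2) := ⟨_, rfl⟩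
  have hqw0 : 0 < qw := by rw [hqw]; positivity
  rw [← hqw] at hlaw
  obtain ⟨Ω, hΩ⟩ : ∃ Ω, Ω = E ×ˢ (S ×ˢ S) := ⟨_, rfl⟩
  rw [← hΩ] at hlaw
  choose! a g g1 g2 g3 using hE
  -- the grid
  obtain ⟨T₀, hT₀⟩ : ∃ T₀, T₀ = K ^ (W + 3) := ⟨_, rfl⟩
  have hT₀1 : 1 ≤ T₀ := by rw [hT₀]; exact Nat.one_le_pow _ _ (by omega)
  have hT₀X : T₀ ≤ X := by
    have : (T₀ : ℝ) ≤ X := by
      rw [hT₀]
      push_cast
      have e1 : √(X : ℝ) ≤ X := by
        rw [Real.sqrt_le_left (by positivity)]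
        exact le_self_pow₀ hX1 (by norm_num)
      have e2 : 0 ≤ L ^ (W + 4) := by positivity
      linarith
    exact_mod_cast this
  obtain ⟨D, hD⟩ : ∃ D, D = X / T₀ := ⟨_, rfl⟩
  have hD1 : 1 ≤ D := by
    rw [hD]
    exact (Nat.le_div_iff_mul_le (by omega)).2 (by omega)
  have hDX : (D : ℝ) * T₀ ≤ X := by
    have : D * T₀ ≤ X := by rw [hD]; exact Nat.div_mul_le_self X T₀
    exact_mod_cast this
  have hgr : 2 * X / D + 1 ≤ 4 * T₀ := by
    have e1 : X < (D + 1) * T₀ := by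
      rw [hD]
      have := Nat.lt_div_mul_add (a := X) (b := T₀) (by omega)
      linarith
    have e2 : 2 * X < (4 * T₀) * D := by nlinarith
    have e3 := (Nat.div_lt_iff_lt_mul (by omega : 0 < D)).2 e2
    omega
  -- bounds
  have hKd : ∀ k : ℤ, k ≤ (2 : ℤ) ^ K → |dl z k| ≤ K := fun k hk => dl_le z K hVz k hk
  have a1' : (4 : ℤ) * X ≤ 2 ^ K := by exact_mod_cast a1
  have hp2 : ((2 : ℕ) : ℤ) ^ K = 2 ^ K := by rw [Nat.cast_ofNat]
  have hXp : (0 : ℤ) < X := by exact_mod_cast (by omega : 0 < X)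
  have hYX : ∀ ω ∈ Ω, |Y ω| ≤ X := by
    intro ω hω
    rw [hΩ, mem_product, mem_product] at hω
    obtain ⟨hm, hz1, hz2⟩ := hω
    obtain ⟨q1, q2⟩ := g1 _ hm _ hz1
    obtain ⟨q3, q4⟩ := g1 _ hm _ hz2
    have q5 : Y ω = (a ω.1 + r ω.1 * ω.2.1) - (a ω.1 + r ω.1 * ω.2.2) := by rw [hYv]; ring
    rw [q5, abs_le]
    constructor <;> linarith
  obtain ⟨Co, hCo⟩ : ∃ Co : ℕ × (ℤ × ℤ) → ℝ, Co = fun ω => |∑ k ∈ Icc 1 X, dl z (a ω.1 + r ω.1 * ω.2.1 + k) * dl z (a ω.1 + r ω.1 * ω.2.2 + k)| := ⟨_, rfl⟩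
  -- upper bound of the correlation
  have hup : ∀ ω ∈ Ω, Co ω ≤ 2 * ∑ i ∈ range (2 * X / D + 1), |∑ j ∈ Icc 1 (i * D), dl z j * (lamI ((j : ℤ) + Y ω) - lamzI z ((j : ℤ) + Y ω))| +
      2 * (D * ((K : ℝ) * K)) := by
    intro ω hω
    have hYω := abs_le.1 (hYX ω hω)
    have hω' := hω
    rw [hΩ, mem_product, mem_product] at hω'
    obtain ⟨hm, hz1, hz2⟩ := hω'
    obtain ⟨q3, q4⟩ := g1 _ hm _ hz2
    obtain ⟨v, hv⟩ := Int.eq_ofNat_of_zero_le q3
    have hvX : v ≤ X := by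
      rw [hv] at q4
      exact_mod_cast q4
    have e1 : Co ω = |∑ j ∈ Ioc v (v + X), dl z j * dl z ((j : ℤ) + Y ω)| := by
      rw [← sum_shiftN (fun j => dl z j * dl z ((j : ℤ) + Y ω)) v X, hCo]
      simp only
      congr 1
      apply sum_congr rfl
      intro k _
      have e2 : a ω.1 + r ω.1 * ω.2.2 + (k : ℤ) = ((v + k : ℕ) : ℤ) := by rw [hv]; push_cast; ring
      have e3 : a ω.1 + r ω.1 * ω.2.1 + (k : ℤ) = ((v + k : ℕ) : ℤ) + Y ω := by
        rw [← e2, hYv]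
        ring
      rw [e2, e3, mul_comm]
    rw [e1]
    have e4 := Pool.Agent.K7.H49.LT.grid (2 * X) D hD1 (fun j => dl z j * dl z ((j : ℤ) + Y ω)) ((K : ℝ) * K) (by
      intro j hj
      rw [mem_Icc] at hj
      rw [abs_mul]
      have hj2 : (j : ℤ) ≤ 2 * X := by exact_mod_cast hj.2
      exact mul_le_mul (hKd _ (by linarith)) (hKd _ (by linarith)) (abs_nonneg _) hK0.le) (by positivity) v (v + X) (by omega) (by omega)
    exact e4
  -- the average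
  have hav : ∑ ω ∈ Ω, qw * Co ω ≤ 2 * ((2 * X / D + 1 : ℕ) * (K * (((2 ^ K : ℕ) : ℝ) / (K : ℝ) ^ U2))) + 2 * (D * ((K : ℝ) * K)) := by
    calc ∑ ω ∈ Ω, qw * Co ω ≤ ∑ ω ∈ Ω, qw * (2 * ∑ i ∈ range (2 * X / D + 1), |∑ j ∈ Icc 1 (i * D), dl z j * (lamI ((j : ℤ) + Y ω) - lamzI z ((j : ℤ) + Y ω))| +
          2 * (D * ((K : ℝ) * K))) := sum_le_sum fun ω hω => mul_le_mul_of_nonneg_left (hup ω hω) hqw0.le
      _ = 2 * ∑ i ∈ range (2 * X / D + 1), ∑ ω ∈ Ω, qw * |∑ j ∈ Icc 1 (i * D), dl z j * (lamI ((j : ℤ) + Y ω) - lamzI z ((j : ℤ) + Y ω))| +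
          2 * (D * ((K : ℝ) * K)) * ∑ _ω ∈ Ω, qw := by
          rw [sum_comm, mul_sum, mul_sum, ← sum_add_distrib]
          apply sum_congr rfl
          intro ω _
          rw [← mul_sum]
          ring
      _ ≤ 2 * ∑ _i ∈ range (2 * X / D + 1), (K * (((2 ^ K : ℕ) : ℝ) / (K : ℝ) ^ U2)) + 2 * (D * ((K : ℝ) * K)) * 1 := by
          apply add_le_add
          · apply mul_le_mul_of_nonneg_left _ (by norm_num)
            apply sum_le_sum
            intro i hi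
            rw [mem_range] at hi
            have hiD : i * D ≤ 2 * X := by
              calc i * D ≤ (2 * X / D) * D := Nat.mul_le_mul_right _ (by omega)
                _ ≤ 2 * X := Nat.div_mul_le_self _ _
            have hiD' : ((i * D : ℕ) : ℤ) ≤ 2 * X := by exact_mod_cast hiD
            have hlog1 : L ≤ Real.log ((2 ^ K : ℕ) : ℝ) := by
              rw [hL]
              apply Real.log_le_log hX0
              exact_mod_cast (by omega : X ≤ 2 ^ K)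
            have hlog2 : Real.log ((2 ^ K : ℕ) : ℝ) ≤ L ^ 2 := by
              push_cast
              rw [Real.log_pow]
              have := Real.log_two_lt_d9
              have : (K : ℝ) * Real.log 2 ≤ K := by nlinarith
              nlinarith
            exact h2 K (by omega) z (by
              refine le_trans ?_ hz1
              rw [pow_mul]
              exact pow_le_pow_left₀ (by linarith) hlog2 _) (hz2.trans (pow_le_pow_left₀ hL0.le hlog1 _)) _ Ω (fun _ => qw) Y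
              (by rw [← hV]; exact hlaw) (i * D) (by rw [hp2]; linarith) (by
                intro ω hω
                have hYω := abs_le.1 (hYX ω hω)
                rw [hp2]
                constructor <;> linarith) K hK0 (fun j => dl z j) (by
                intro j hj
                rw [mem_Icc] at hj
                apply hKd
                have : (j : ℤ) ≤ ((i * D : ℕ) : ℤ) := by exact_mod_cast hj.2
                linarith)
          · exact mul_le_mul_of_nonneg_left hlaw.le_one (by positivity)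
      _ = _ := by
          rw [sum_const, card_range, nsmul_eq_mul, mul_one]
  -- the lower bound
  have hlow : (X : ℝ) / L ^ W ≤ ∑ ω ∈ Ω, qw * Co ω := by
    have e1 : ∀ m ∈ E, (X : ℝ) * (S.card : ℝ) ^ 2 / L ^ W ≤ ∑ zz ∈ S ×ˢ S, Co (m, zz) := by
      intro m hm
      have d1 := dualR X S (fun w k => dl z (a m + r m * w + k)) (g m)
      have d2 : ∑ k ∈ Icc 1 X, g m k ^ 2 ≤ X := by
        calc ∑ k ∈ Icc 1 X, g m k ^ 2 ≤ ∑ _k ∈ Icc 1 X, (1 : ℝ) := by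
              apply sum_le_sum
              intro k hk
              have := abs_le.1 (g2 m hm k hk)
              nlinarith
          _ = X := by rw [sum_const, Nat.card_Icc, nsmul_eq_mul, Nat.add_sub_cancel, mul_one]
      have d3 := g3 m hm
      have d4 : ((X : ℝ) * S.card / L ^ U₁) ^ 2 ≤ X * ∑ zz ∈ S ×ˢ S, Co (m, zz) := by
        refine (pow_le_pow_left₀ (by positivity) d3.le 2).trans (d1.trans ?_)
        have d5 : ∑ zz ∈ S ×ˢ S, |∑ k ∈ Icc 1 X, dl z (a m + r m * zz.1 + k) * dl z (a m + r m * zz.2 + k)| = ∑ zz ∈ S ×ˢ S, Co (m, zz) := by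
          rw [hCo]
        rw [← d5]
        exact mul_le_mul_of_nonneg_right d2 (sum_nonneg fun _ _ => abs_nonneg _)
      have d6 : ((X : ℝ) * S.card / L ^ U₁) ^ 2 = X * ((X : ℝ) * (S.card : ℝ) ^ 2 / L ^ W) := by
        rw [hW, mul_comm 2 U₁, pow_mul, div_pow]
        ring
      rw [d6] at d4
      exact le_of_mul_le_mul_left d4 hX0
    have e2 : (E.card : ℝ) * ((X : ℝ) * (S.card : ℝ) ^ 2 / L ^ W) ≤ ∑ ω ∈ Ω, Co ω := by
      rw [hΩ, sum_product, ← nsmul_eq_mul, ← sum_const]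
      exact sum_le_sum e1
    rw [← mul_sum]
    have e3 := mul_le_mul_of_nonneg_left e2 hqw0.le
    refine le_trans (le_of_eq ?_) e3
    rw [hqw]
    field_simp
  -- the contradiction
  have hfin : 2 * ((2 * X / D + 1 : ℕ) * (K * (((2 ^ K : ℕ) : ℝ) / (K : ℝ) ^ U2))) + 2 * (D * ((K : ℝ) * K)) < (X : ℝ) / L ^ W := by
    have f1 : ((2 * X / D + 1 : ℕ) : ℝ) ≤ 4 * (K : ℝ) ^ (W + 3) := by
      have : ((2 * X / D + 1 : ℕ) : ℝ) ≤ ((4 * T₀ : ℕ) : ℝ) := by exact_mod_cast hgr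
      rw [hT₀] at this
      push_cast at this ⊢
      exact this
    have f2 : ((2 ^ K : ℕ) : ℝ) ≤ 8 * X := by exact_mod_cast a2
    have f3 : (K : ℝ) ^ U2 = (K : ℝ) ^ (W + 3) * ((K : ℝ) ^ W * (K : ℝ) ^ 3) := by
      rw [hU2, ← pow_add, ← pow_add]
      congr 1
      omega
    have f4 : 2 * (((2 * X / D + 1 : ℕ) : ℝ) * (K * (((2 ^ K : ℕ) : ℝ) / (K : ℝ) ^ U2))) ≤ 64 * X / ((K : ℝ) ^ W * (K : ℝ) ^ 2) := by
      calc 2 * (((2 * X / D + 1 : ℕ) : ℝ) * (K * (((2 ^ K : ℕ) : ℝ) / (K : ℝ) ^ U2))) ≤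
            2 * ((4 * (K : ℝ) ^ (W + 3)) * (K * ((8 * X) / (K : ℝ) ^ U2))) := by gcongr
        _ = _ := by
            rw [f3]
            field_simp
            norm_num
    have f5 : (D : ℝ) ≤ X / ((K : ℝ) ^ W * (K : ℝ) ^ 3) := by
      rw [le_div_iff₀ (by positivity)]
      refine le_trans (le_of_eq ?_) hDX
      rw [hT₀]
      push_cast
      rw [pow_add]
    have f6 : 2 * ((D : ℝ) * ((K : ℝ) * K)) ≤ 2 * X / ((K : ℝ) ^ W * K) := by
      calc 2 * ((D : ℝ) * ((K : ℝ) * K)) ≤ 2 * ((X / ((K : ℝ) ^ W * (K : ℝ) ^ 3)) * ((K : ℝ) * K)) := by gcongr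
        _ = _ := by field_simp
    have f7 : 64 * X / ((K : ℝ) ^ W * (K : ℝ) ^ 2) ≤ X / ((K : ℝ) ^ W * K) := by
      rw [div_le_div_iff₀ (by positivity) (by positivity)]
      have : 64 * ((X : ℝ) * ((K : ℝ) ^ W * K)) ≤ K * ((X : ℝ) * ((K : ℝ) ^ W * K)) := by
        apply mul_le_mul_of_nonneg_right (by linarith) (by positivity)
      nlinarith
    have f8 : 3 * X / ((K : ℝ) ^ W * K) < X / (K : ℝ) ^ W := by
      rw [div_lt_div_iff₀ (by positivity) (by positivity)]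
      have : 3 * ((X : ℝ) * (K : ℝ) ^ W) < K * ((X : ℝ) * (K : ℝ) ^ W) := by
        apply mul_lt_mul_of_pos_right (by linarith) (by positivity)
      nlinarith
    have f9 : (X : ℝ) / (K : ℝ) ^ W ≤ X / L ^ W := by
      apply div_le_div_of_nonneg_left hX0.le (by positivity)
      exact pow_le_pow_left₀ hL0.le a3 W
    have f10 : X / ((K : ℝ) ^ W * K) + 2 * X / ((K : ℝ) ^ W * K) = 3 * X / ((K : ℝ) ^ W * K) := by ring
    linarith
  linarith

end Pool.Agent.V5helper23.KQ
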