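import Pool.Agent.V5helper23.KQ.Core
import Pool.Agent.V5helper54.CS.Iter

set_option autoImplicit false

/-! Several progressions at once. -/

namespace Pool.Agent.V5helper23.KQ
open Finset
open Pool.Agent.H373R2.T7 (Vz Vz_pos Vz_le_one ev_L' energy Vz_inv_le pz)

/-- `1 ≤ V(y) log x` -/
lemma one_le_VL (K1 : ℕ) : ∃ x0 : ℕ, ∀ x : ℕ, x0 ≤ x → ∀ y : ℕ, (y : ℝ) ≤ K1 * Real.log (Real.log x) →
    2 ≤ Real.log x ∧ 1 ≤ Vz y * Real.log x := by
  obtain ⟨x2, hx2⟩ := ev_L' (max 2 (2 * K1))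
  obtain ⟨x3, hx3⟩ := ev_L' (4 * (K1 : ℝ) ^ 2 + 4)
  refine ⟨max x2 x3, fun x hx y hy2 => ?_⟩
  have hL := hx2 x (le_trans (le_max_left _ _) hx)
  have hL4 := hx3 x (le_trans (le_max_right _ _) hx)
  obtain ⟨L, hLd⟩ : ∃ L, L = Real.log (x : ℝ) := ⟨_, rfl⟩
  rw [← hLd] at hL hL4 hy2 ⊢
  have hL2 : 2 ≤ L := (le_max_left _ _).trans hL
  have hL0 : 0 < L := by linarith
  have hVy := Vz_pos y
  refine ⟨hL2, ?_⟩
  rcases Nat.eq_zero_or_pos y with h0 | h0
  · have h1 : Vz y = 1 := by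
      rw [h0]
      unfold Vz
      have : pz 0 = ∅ := by
        unfold pz
        ext p
        simp
      rw [this, prod_empty]
    rw [h1]
    linarith
  · have h1 := Vz_inv_le y h0
    have h2 : (y : ℝ) ≤ L := by
      have h3 : Real.log L ≤ √L * 2 := by
        have h4 : Real.log L = 2 * Real.log (√L) := by
          rw [Real.log_sqrt hL0.le]
          ring
        have h5 : Real.log (√L) ≤ √L := (Real.log_le_sub_one_of_pos (Real.sqrt_pos.2 hL0)).trans (by linarith)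
        rw [h4]
        linarith
      have hsq : √L * √L = L := Real.mul_self_sqrt hL0.le
      have h2K : 2 * (K1 : ℝ) ≤ √L := by
        apply Real.le_sqrt_of_sq_le
        nlinarith
      have h5 : (K1 : ℝ) * Real.log L ≤ L := by
        calc (K1 : ℝ) * Real.log L ≤ K1 * (√L * 2) := mul_le_mul_of_nonneg_left h3 (Nat.cast_nonneg _)
          _ = (2 * K1) * √L := by ring
          _ ≤ √L * √L := mul_le_mul_of_nonneg_right h2K (Real.sqrt_nonneg _)
          _ = L := hsq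
      linarith
    have h3 : (Vz y)⁻¹ ≤ L := h1.trans h2
    rw [inv_le_comm₀ hVy hL0] at h3
    calc (1 : ℝ) = L⁻¹ * L := by field_simp
      _ ≤ Vz y * L := mul_le_mul_of_nonneg_right h3 hL0.le

set_option maxHeartbeats 4000000 in
open Classical in
theorem line_multi (K A U : ℕ) (ε : ℝ) (hε : 0 < ε) (hε1 : ε ≤ 1) : ∃ K₀ D B : ℕ, ∀ K₁ C p : ℕ, ∃ B' X₀ : ℕ, ∀ X : ℕ, X₀ ≤ X →
    ∀ y : ℕ, K₀ * Real.log (Real.log X) ≤ y → y ≤ K₁ * Real.log (Real.log X) →
    ∀ (n l : ℕ) (r : ℕ → ℤ), (LongLine B B' C X n l r ∨ ShortLine p B C X n l r) →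
    ∀ E : Finset ℕ, E ⊆ Icc 1 n → (∀ m ∈ E, r m ≠ 0 ∧ ∃ a : Fin K → ℤ,
      (∀ i, ∀ w ∈ Icc 1 l, (X : ℤ) < primorial y * (a i + r m * (w : ℕ)) ∧ (primorial y : ℤ) * (a i + r m * (w : ℕ)) ≤ 2 * X) ∧
      ∃ S : Finset ℕ, S ⊆ Icc 1 X ∧ (∀ s ∈ S, s.Prime) ∧ (X : ℝ) ≤ S.card * Real.log X ^ A ∧
        (∀ i, ∀ q : ℕ, q.Prime → y < q → (q : ℝ) ≤ Real.log X ^ D → (q : ℤ) ∣ r m → ∀ s ∈ S, ¬ (q : ℤ) ∣ primorial y * a i - (s : ℕ)) ∧
        ε * (l : ℝ) ^ K < (((Fintype.piFinset (fun _ : Fin K => Icc 1 l)).filter (fun w : Fin K → ℕ =>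
          ((S.filter (fun s => ∀ i, ((primorial y : ℤ) * (a i + r m * (w i : ℕ)) - (s : ℕ)).toNat.Prime)).card : ℝ) <
          (1 - ε) * (S.card / (Vz y * Real.log X) ^ K))).card : ℝ)) →
    (E.card : ℝ) ≤ n / Real.log X ^ U := by
  obtain ⟨η, hηd⟩ : ∃ η : ℝ, η = ε / (2 * (K + 1)) := ⟨_, rfl⟩
  have hk0 : (0 : ℝ) ≤ K := Nat.cast_nonneg K
  have hη : 0 < η := by rw [hηd]; positivity
  have hη1 : η ≤ 1 / 2 := by
    rw [hηd, div_le_div_iff₀ (by positivity) (by norm_num)]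
    nlinarith
  have hkη : K * η ≤ ε := by
    rw [hηd, ← mul_div_assoc, div_le_iff₀ (by positivity)]
    nlinarith
  obtain ⟨K0, D, B, hcore⟩ := line_core (A + 2 * K) U η hη (by linarith)
  refine ⟨K0, D, B, fun K₁ C p => ?_⟩
  obtain ⟨B', X0, hcore⟩ := hcore K₁ C p
  obtain ⟨x1, hx1⟩ := one_le_VL K₁
  refine ⟨B', X0 + x1, fun X hX y hy1 hy2 n l r hfam E hEI hE => ?_⟩
  obtain ⟨hL2, hVL⟩ := hx1 X (by omega) y hy2
  refine hcore X (by omega) y hy1 hy2 n l r hfam E hEI ?_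
  intro m hm
  obtain ⟨hr, a, hrange, S, hS, hSp, hSA, hadm, hbad⟩ := hE m hm
  refine ⟨hr, ?_⟩
  by_contra hcon
  push Not at hcon
  obtain ⟨L, hLd⟩ : ∃ L, L = Real.log (X : ℝ) := ⟨_, rfl⟩
  rw [← hLd] at hL2 hVL hSA hadm hbad hcon
  have hL0 : 0 < L := by linarith
  have hVy := Vz_pos y
  have hVy1 := Vz_le_one y
  have hVLL : Vz y * L ≤ L := mul_le_of_le_one_left hL0.le hVy1
  obtain ⟨ρ, hρd⟩ : ∃ ρ : ℝ, ρ = (1 - η) / (Vz y * L) := ⟨_, rfl⟩
  have hVL0 : 0 < Vz y * L := by positivity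
  have hρ0 : 0 ≤ ρ := by rw [hρd]; exact div_nonneg (by linarith) hVL0.le
  have hρ1 : ρ ≤ 1 := by
    rw [hρd, div_le_one hVL0]
    linarith
  have hρL : 1 / L ^ 2 ≤ ρ := by
    rw [hρd, div_le_div_iff₀ (by positivity) hVL0, one_mul]
    nlinarith
  have hS0 : (0 : ℝ) ≤ S.card := Nat.cast_nonneg _
  have hit := Pool.Agent.V5helper54.CS.iter η ρ (X / L ^ (A + 2 * K)) hη.le hρ0 hρ1 K (fun _ => Icc 1 l)
    (fun i w s => ((primorial y : ℤ) * (a i + r m * (w : ℕ)) - (s : ℕ)).toNat.Prime) S (by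
      intro i T hT hTc
      rw [div_le_iff₀ (by positivity)] at hTc
      have h1 := hcon (a i) (hrange i) T (hT.trans hS) (fun s hs => hSp s (hT hs)) hTc
        (fun q q1 q2 q3 q4 s hs => hadm i q q1 q2 q3 q4 s (hT hs))
      rw [Nat.card_Icc, Nat.add_sub_cancel]
      have e1 : ρ * (T.card : ℝ) = (1 - η) * (T.card / (Vz y * L)) := by
        rw [hρd]
        ring
      rw [e1]
      refine (le_of_eq ?_).trans h1
      congr!) (by
      rw [div_le_iff₀ (by positivity)]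
      calc (X : ℝ) ≤ S.card * L ^ A := hSA
        _ = ((1 / L ^ 2) ^ K * S.card) * L ^ (A + 2 * K) := by
            rw [pow_add, one_div, inv_pow, ← pow_mul]
            field_simp
        _ ≤ (ρ ^ K * S.card) * L ^ (A + 2 * K) := by
            apply mul_le_mul_of_nonneg_right _ (by positivity)
            apply mul_le_mul_of_nonneg_right _ hS0
            exact pow_le_pow_left₀ (by positivity) hρL K)
  have hprod : ∏ _i : Fin K, (((Icc 1 l).card : ℕ) : ℝ) = (l : ℝ) ^ K := by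
    rw [prod_const, card_univ, Fintype.card_fin, Nat.card_Icc, Nat.add_sub_cancel]
  rw [hprod] at hit
  have hlK : (0 : ℝ) ≤ (l : ℝ) ^ K := by positivity
  have h2 : K * η * (l : ℝ) ^ K ≤ ε * (l : ℝ) ^ K := mul_le_mul_of_nonneg_right hkη hlK
  have h3 : (((Fintype.piFinset (fun _ : Fin K => Icc 1 l)).filter (fun w : Fin K → ℕ =>
          ((S.filter (fun s => ∀ i, ((primorial y : ℤ) * (a i + r m * (w i : ℕ)) - (s : ℕ)).toNat.Prime)).card : ℝ) <
          (1 - ε) * (S.card / (Vz y * L) ^ K))).card : ℝ) ≤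
      (((Fintype.piFinset (fun _ : Fin K => Icc 1 l)).filter (fun w : Fin K → ℕ =>
          ((S.filter (fun s => ∀ i, ((primorial y : ℤ) * (a i + r m * (w i : ℕ)) - (s : ℕ)).toNat.Prime)).card : ℝ) <
          ρ ^ K * S.card)).card : ℝ) := by
    have : (1 - ε) * (S.card / (Vz y * L) ^ K) ≤ ρ ^ K * S.card := by
      have h4 : 1 - ε ≤ (1 - η) ^ K := by
        have := one_add_mul_le_pow (show (-2 : ℝ) ≤ -η by linarith) K
        have h5 : 1 + K * -η = 1 - K * η := by ring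
        have h6 : (1 + -η) = 1 - η := by ring
        rw [h5, h6] at this
        linarith
      calc (1 - ε) * (S.card / (Vz y * L) ^ K) ≤ (1 - η) ^ K * (S.card / (Vz y * L) ^ K) :=
            mul_le_mul_of_nonneg_right h4 (by positivity)
        _ = _ := by rw [hρd, div_pow]; ring
    exact_mod_cast card_le_card (monotone_filter_right _ (fun w _ hw => lt_of_lt_of_le hw this))
  have h4 := hbad.trans_le (h3.trans ((le_of_eq (by congr!)).trans (hit.trans h2)))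
  exact lt_irrefl _ h4

end Pool.Agent.V5helper23.KQ
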