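import Pool.Agent.V5helper23.KQ.Lam
import Pool.Agent.K7.H49.LT.Model

set_option autoImplicit false

/-! Every bounded function correlates with few of the translates of the difference of two models of the primes. -/

namespace Pool.Agent.V5helper23.KQ
open Finset
open Pool.Agent.H373R2.T7
open Pool.Agent.K7.H49.LT (sg nu2 model pair_close)

/-- the difference of two models -/
noncomputable def dz (z w : ℕ) (k : ℤ) : ℝ := lamzI z k - lamzI w k

lemma nu2_symm (α β : ℕ) : nu2 α β = nu2 β α := by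
  ext p
  unfold nu2
  congr 1
  ext r
  simp only [mem_filter, or_comm]

theorem corr2 (E U : ℕ) : ∃ N0 : ℕ, ∀ T : ℕ, N0 ≤ T → ∀ α β w z : ℕ, α ≠ β → α ≤ T → β ≤ T → 6 ≤ w → w ≤ z →
    (z : ℝ) ≤ Real.log T ^ E → 8 * Real.log T ≤ w →
    |∑ b ∈ Icc 1 T, dz z w ((α : ℤ) + b) * dz z w ((β : ℤ) + b)| ≤
      T * (Real.log T ^ 2 * ((16 * Real.log T + 4) / w) + 4 / Real.log T ^ U) := by
  obtain ⟨n1, h1⟩ := model E U
  obtain ⟨n2, h2⟩ := Vz_inv_small E
  refine ⟨n1 + n2 + 1, fun T hT α β w z hne hα hβ hw hwz hz hwT => ?_⟩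
  obtain ⟨L, hL⟩ : ∃ L, L = Real.log (T : ℝ) := ⟨_, rfl⟩
  have hT1 : (1 : ℝ) ≤ T := by exact_mod_cast (by omega : 1 ≤ T)
  have hT0 : (0 : ℝ) < T := by linarith
  have hL0 : 0 ≤ L := by rw [hL]; exact Real.log_nonneg hT1
  have hwz' : (w : ℝ) ≤ z := by exact_mod_cast hwz
  have m1 := h1 T (by omega) α β z z (by omega) le_rfl hz
  have m2 := h1 T (by omega) α β w z (by omega) hwz hz
  have m3 := h1 T (by omega) β α w z (by omega) hwz hz
  have m4 := h1 T (by omega) α β w w (by omega) le_rfl (hwz'.trans hz)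
  have hV := h2 T (by omega) w (by omega) (hwz'.trans hz)
  have hpc := pair_close α β w z hne T hT1 (by exact_mod_cast hα) (by exact_mod_cast hβ) hw hwz hwT
  rw [nu2_symm β α] at m3
  rw [← hL] at m1 m2 m3 m4 hV hpc ⊢
  have hw0 : (0 : ℝ) < w := by exact_mod_cast (by omega : 0 < w)
  have hV0 : 0 ≤ (Vz w)⁻¹ := (inv_pos.2 (Vz_pos w)).le
  have e1 : ∑ b ∈ Icc 1 T, dz z w ((α : ℤ) + b) * dz z w ((β : ℤ) + b) =
      ∑ b ∈ Icc 1 T, lamzI z ((α : ℤ) + b) * lamzI z ((β : ℤ) + b) - ∑ b ∈ Icc 1 T, lamzI z ((α : ℤ) + b) * lamzI w ((β : ℤ) + b) -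
        ∑ b ∈ Icc 1 T, lamzI z ((β : ℤ) + b) * lamzI w ((α : ℤ) + b) + ∑ b ∈ Icc 1 T, lamzI w ((α : ℤ) + b) * lamzI w ((β : ℤ) + b) := by
    rw [← sum_sub_distrib, ← sum_sub_distrib, ← sum_add_distrib]
    apply sum_congr rfl
    intro b _
    unfold dz
    ring
  rw [e1]
  have m1 := abs_le.1 m1
  have m2 := abs_le.1 m2
  have m3 := abs_le.1 m3
  have m4 := abs_le.1 m4
  have hpc' : |sg 2 (nu2 α β) z - sg 2 (nu2 α β) w| ≤ L ^ 2 * ((16 * L + 4) / w) := by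
    refine hpc.trans ?_
    apply mul_le_mul_of_nonneg_right (pow_le_pow_left₀ hV0 hV 2) (by positivity)
  have hpc2 := abs_le.1 hpc'
  have f1 : (T : ℝ) * (L ^ 2 * ((16 * L + 4) / w) + 4 / L ^ U) = T * (L ^ 2 * ((16 * L + 4) / w)) + 4 * (T / L ^ U) := by ring
  rw [f1]
  have f2 := mul_le_mul_of_nonneg_left hpc2.1 hT0.le
  have f3 := mul_le_mul_of_nonneg_left hpc2.2 hT0.le
  rw [abs_le]
  constructor <;> nlinarith

theorem sieve_univ (A E : ℕ) : ∃ X₀ : ℕ, ∀ X : ℕ, X₀ ≤ X → ∀ w z : ℕ, Real.log X ^ (2 * A + 5) ≤ w → w ≤ z →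
    (z : ℝ) ≤ Real.log X ^ E → ∀ (S : Finset ℕ) (α : ℕ → ℕ), (∀ i ∈ S, ∀ j ∈ S, α i = α j → i = j) → (∀ i ∈ S, α i ≤ X) →
    Real.log X ^ (2 * A + 4) ≤ S.card → ∀ g : ℕ → ℝ, (∀ k ∈ Icc 1 X, |g k| ≤ 1) →
    ∑ i ∈ S, |∑ k ∈ Icc 1 X, g k * dz z w ((α i : ℤ) + k)| ≤ X * S.card / Real.log X ^ A := by
  classical
  obtain ⟨n1, h1⟩ := corr2 E (2 * A + 2)
  obtain ⟨n2, h2⟩ := Vz_inv_small E
  obtain ⟨n3, h3⟩ := ev_L' 100
  refine ⟨n1 + n2 + n3 + 1, fun X hX w z hw hwz hz S α hinj hαX hS g hg => ?_⟩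
  have hL100 := h3 X (by omega)
  obtain ⟨L, hL⟩ : ∃ L, L = Real.log (X : ℝ) := ⟨_, rfl⟩
  rw [← hL] at hL100 hw hz hS ⊢
  have hX1 : (1 : ℝ) ≤ X := by exact_mod_cast (by omega : 1 ≤ X)
  have hX0 : (0 : ℝ) < X := by linarith
  have hL1 : 1 ≤ L := by linarith
  have hL0 : 0 < L := by linarith
  have hLw : L ^ 5 ≤ w := (pow_le_pow_right₀ hL1 (by omega)).trans hw
  have hLL : L * 100 ≤ L ^ 5 := by
    calc L * 100 ≤ L * L := mul_le_mul_of_nonneg_left hL100 hL0.le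
      _ = L ^ 2 := by ring
      _ ≤ L ^ 5 := pow_le_pow_right₀ hL1 (by norm_num)
  have hw8 : 8 * L ≤ w := by linarith
  have hw6 : 6 ≤ w := by
    have : (6 : ℝ) ≤ w := by linarith
    exact_mod_cast this
  have hw0 : (0 : ℝ) < w := by exact_mod_cast (by omega : 0 < w)
  have hwz' : (w : ℝ) ≤ z := by exact_mod_cast hwz
  have hVz := h2 X (by omega) z (by omega) (by rw [← hL]; exact hz)
  have hVw := h2 X (by omega) w (by omega) (by rw [← hL]; exact hwz'.trans hz)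
  rw [← hL] at hVz hVw
  have hdz : ∀ k : ℤ, |dz z w k| ≤ L := by
    intro k
    unfold dz
    have q1 := lamzI_le z k
    have q2 := lamzI_le w k
    have q3 : ∀ u : ℕ, 0 ≤ lamzI u k := by
      intro u
      unfold lamzI
      split_ifs
      · exact lamz_nonneg _ _
      · exact le_rfl
    have q4 := q3 z
    have q5 := q3 w
    rw [abs_le]
    constructor <;> linarith
  have hs0 : (0 : ℝ) < S.card := lt_of_lt_of_le (by positivity) hS
  obtain ⟨κ, hκ⟩ : ∃ κ : ℝ, κ = 1 / (2 * L ^ (2 * A)) := ⟨_, rfl⟩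
  have hκ0 : 0 < κ := by rw [hκ]; positivity
  -- off the diagonal
  have hoff : ∀ i ∈ S, ∀ j ∈ S, i ≠ j → |∑ k ∈ Icc 1 X, dz z w ((α i : ℤ) + k) * dz z w ((α j : ℤ) + k)| ≤ X * κ := by
    intro i hi j hj hij
    refine (h1 X (by omega) (α i) (α j) w z (fun h => hij (hinj i hi j hj h)) (hαX i hi) (hαX j hj) hw6 hwz
      (by rw [← hL]; exact hz) (by rw [← hL]; exact hw8)).trans ?_
    rw [← hL]
    apply mul_le_mul_of_nonneg_left _ hX0.le
    have f1 : L ^ 2 * ((16 * L + 4) / w) ≤ 20 / L ^ (2 * A + 2) := by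
      calc L ^ 2 * ((16 * L + 4) / w) ≤ L ^ 2 * ((20 * L) / L ^ (2 * A + 5)) := by
            gcongr
            linarith
        _ = 20 / L ^ (2 * A + 2) := by
            rw [show 2 * A + 5 = (2 * A + 2) + 3 by ring, pow_add L (2 * A + 2)]
            field_simp
    have f2 : 20 / L ^ (2 * A + 2) + 4 / L ^ (2 * A + 2) ≤ κ := by
      rw [← add_div, hκ, div_le_div_iff₀ (by positivity) (by positivity), pow_add]
      have : 0 < L ^ (2 * A) := by positivity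
      have h5 : (48 : ℝ) * L ^ (2 * A) ≤ L ^ 2 * L ^ (2 * A) := by
        apply mul_le_mul_of_nonneg_right _ this.le
        nlinarith
      nlinarith
    linarith
  have hdia : ∀ i, |∑ k ∈ Icc 1 X, dz z w ((α i : ℤ) + k) * dz z w ((α i : ℤ) + k)| ≤ X * L ^ 2 := by
    intro i
    refine (abs_sum_le_sum_abs _ _).trans ?_
    calc ∑ k ∈ Icc 1 X, |dz z w ((α i : ℤ) + k) * dz z w ((α i : ℤ) + k)| ≤ ∑ _k ∈ Icc 1 X, L ^ 2 := by
          apply sum_le_sum
          intro k _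
          rw [abs_mul, sq]
          exact mul_le_mul (hdz _) (hdz _) (abs_nonneg _) hL0.le
      _ = _ := by rw [sum_const, Nat.card_Icc, nsmul_eq_mul, Nat.add_sub_cancel]
  have hd := dualR X S (fun i k => dz z w ((α i : ℤ) + k)) g
  have d2 : ∑ k ∈ Icc 1 X, g k ^ 2 ≤ X := by
    calc ∑ k ∈ Icc 1 X, g k ^ 2 ≤ ∑ _k ∈ Icc 1 X, (1 : ℝ) := by
          apply sum_le_sum
          intro k hk
          have := abs_le.1 (hg k hk)
          nlinarith
      _ = X := by rw [sum_const, Nat.card_Icc, nsmul_eq_mul, Nat.add_sub_cancel, mul_one]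
  have d3 : ∑ zz ∈ S ×ˢ S, |∑ k ∈ Icc 1 X, dz z w ((α zz.1 : ℤ) + k) * dz z w ((α zz.2 : ℤ) + k)| ≤
      S.card * (X * L ^ 2) + (S.card : ℝ) ^ 2 * (X * κ) := by
    have e1 : ∀ zz ∈ S ×ˢ S, |∑ k ∈ Icc 1 X, dz z w ((α zz.1 : ℤ) + k) * dz z w ((α zz.2 : ℤ) + k)| ≤
        (if zz.1 = zz.2 then X * L ^ 2 else 0) + X * κ := by
      intro zz hzz
      rw [mem_product] at hzz
      by_cases h : zz.1 = zz.2
      · rw [if_pos h, ← h]
        have := hdia zz.1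
        have : 0 ≤ X * κ := by positivity
        linarith
      · rw [if_neg h, zero_add]
        exact hoff _ hzz.1 _ hzz.2 h
    refine (sum_le_sum e1).trans ?_
    rw [sum_add_distrib, sum_const, card_product, nsmul_eq_mul, sum_product]
    have e2 : ∑ i ∈ S, ∑ j ∈ S, (if i = j then X * L ^ 2 else 0) = S.card * (X * L ^ 2) := by
      have : ∀ i ∈ S, ∑ j ∈ S, (if i = j then X * L ^ 2 else 0) = X * L ^ 2 := by
        intro i hi
        rw [sum_ite_eq, if_pos hi]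
      rw [sum_congr rfl this, sum_const, nsmul_eq_mul]
    simp only
    rw [e2]
    push_cast
    apply le_of_eq
    ring
  have d4 : S.card * (X * L ^ 2) + (S.card : ℝ) ^ 2 * (X * κ) ≤ X * ((S.card : ℝ) ^ 2 / L ^ (2 * A)) := by
    have e1 : L ^ 2 ≤ S.card * κ := by
      rw [hκ, mul_one_div, le_div_iff₀ (by positivity)]
      refine le_trans ?_ hS
      rw [show 2 * A + 4 = 2 + (2 * A) + 2 by ring, pow_add, pow_add]
      have h6 : 0 < L ^ 2 * L ^ (2 * A) := by positivity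
      have h7 : (2 : ℝ) ≤ L ^ 2 := by nlinarith
      have h8 := mul_le_mul_of_nonneg_left h7 h6.le
      linarith
    have e2 : (S.card : ℝ) * (X * L ^ 2) ≤ S.card * (X * (S.card * κ)) := by gcongr
    have e3 : X * ((S.card : ℝ) ^ 2 / L ^ (2 * A)) = 2 * ((S.card : ℝ) ^ 2 * (X * κ)) := by
      rw [hκ]
      field_simp
    rw [e3]
    nlinarith
  have d5 : (∑ i ∈ S, |∑ k ∈ Icc 1 X, g k * dz z w ((α i : ℤ) + k)|) ^ 2 ≤ (X * S.card / L ^ A) ^ 2 := by
    refine hd.trans ?_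
    calc (∑ k ∈ Icc 1 X, g k ^ 2) * ∑ zz ∈ S ×ˢ S, |∑ k ∈ Icc 1 X, dz z w ((α zz.1 : ℤ) + k) * dz z w ((α zz.2 : ℤ) + k)| ≤
          X * (X * ((S.card : ℝ) ^ 2 / L ^ (2 * A))) := by
          apply mul_le_mul d2 (d3.trans d4) (sum_nonneg fun _ _ => abs_nonneg _) hX0.le
      _ = (X * S.card / L ^ A) ^ 2 := by
          rw [mul_comm 2 A, pow_mul, div_pow]
          ring
  exact (pow_le_pow_iff_left₀ (sum_nonneg fun _ _ => abs_nonneg _) (by positivity) (by norm_num)).1 d5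

end Pool.Agent.V5helper23.KQ
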